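import Pool.Agent.Helper43.FL2.Inert
import Pool.Agent.Helper36.FL.Cyl

/-!
# FL2-C1a: the frame `T0` is good
-/

open CategoryTheory MonoidalCategory Opposite

set_option autoImplicit false

namespace Pool.Agent.Helper43.FL2

open FL

noncomputable section

variable {C : Type} [SmallCategory C]

theorem T0_map_app {X Y : Wr C} (ι : X ⟶ Y) (m : SimplexCategory) (η : (Wr C)ᵒᵖ)
    (k : SimplexCategoryᵒᵖ) (φ : η.unop ⟶ X) (w : Fin (η.unop.len + 1) → Fin (m.len + 1)) :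
    ((((T0 C).map ι).app m).app η).app k
      ((φ, w) : (((T0 C).obj X).obj m).obj η |>.obj k) = ((φ ≫ ι, w) :
        (((T0 C).obj Y).obj m).obj η |>.obj k) := rfl

theorem mem_range_T0 {X Y : Wr C} (ι : X ⟶ Y) (m : SimplexCategory) (η : (Wr C)ᵒᵖ)
    (k : SimplexCategoryᵒᵖ) (z : ((((T0 C).obj Y).obj m).obj η).obj k) :
    z ∈ (Sb.range (((T0 C).map ι).app m)).mem η k ↔ ∃ φ : η.unop ⟶ X, φ ≫ ι = z.1 := by
  obtain ⟨ψ, w⟩ := z
  constructor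
  · rintro ⟨⟨φ, w'⟩, h⟩
    exact ⟨φ, congrArg Prod.fst h⟩
  · rintro ⟨φ, h⟩
    exact ⟨(φ, w), Prod.ext h rfl⟩

theorem mono_T0 {X Y : Wr C} {ι : X ⟶ Y} {a : ℕ} (h : Inert ι a) (m : SimplexCategory)
    (η : (Wr C)ᵒᵖ) : Mono ((((T0 C).map ι).app m).app η) := by
  rw [NatTrans.mono_iff_mono_app]
  intro k
  rw [mono_iff_injective]
  rintro ⟨φ, w⟩ ⟨ψ, w'⟩ e
  have e2 : ((φ ≫ ι, w) : (η.unop ⟶ Y) × (Fin (η.unop.len + 1) → Fin (m.len + 1))) =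
    (ψ ≫ ι, w') := e
  exact Prod.ext (h.comp_injective (congrArg Prod.fst e2)) (Prod.ext_iff.1 e2).2

theorem mem_range_inert {X Y : Wr C} {ι : X ⟶ Y} {a : ℕ} (h : Inert ι a) (m : SimplexCategory)
    (η : (Wr C)ᵒᵖ) (k : SimplexCategoryᵒᵖ) (z : ((((T0 C).obj Y).obj m).obj η).obj k) :
    z ∈ (Sb.range (((T0 C).map ι).app m)).mem η k ↔
      ∀ t, a ≤ (Wr.Hom.f (z.1 : η.unop ⟶ Y) t).val ∧
        (Wr.Hom.f (z.1 : η.unop ⟶ Y) t).val ≤ a + X.len := by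
  exact (mem_range_T0 ι m η k z).trans (h.factor_iff z.1)

theorem inter_T0 {r : ℕ} (c : Fin (r + 1) → C) (m : SimplexCategory) :
    Sb.range (((T0 C).map (initMap c)).app m) ⊓ Sb.range (((T0 C).map (lastMap' c)).app m) ≤
      Sb.range (((T0 C).map (vtx ⟨r + 1, c⟩ (Fin.last r).castSucc)).app m) := by
  rintro η k z ⟨h1, h2⟩
  have h1' := (mem_range_inert (inert_init c) m η k z).1 h1
  have h2' := (mem_range_inert (inert_last c) m η k z).1 h2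
  refine (mem_range_inert (inert_vtx (⟨r + 1, c⟩ : Wr C) (Fin.last r).castSucc) m η k z).2
    fun t => ?_
  have e1 := h1' t
  have e2 := h2' t
  change 0 ≤ _ ∧ _ ≤ 0 + r at e1
  change r ≤ _ ∧ _ ≤ r + 1 at e2
  change r ≤ _ ∧ _ ≤ r + 0
  omega

theorem disj_T0 (c : C) (m : SimplexCategory) :
    Sb.range (((T0 C).map (vtx (seg c) 0)).app m) ⊓
      Sb.range (((T0 C).map (vtx (seg c) 1)).app m) = ⊥ := by
  refine le_antisymm ?_ bot_le
  rintro η k z ⟨h1, h2⟩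
  have h1' := (mem_range_inert (inert_vtx (seg c) 0) m η k z).1 h1 0
  have h2' := (mem_range_inert (inert_vtx (seg c) 1) m η k z).1 h2 0
  change 0 ≤ _ ∧ _ ≤ 0 + 0 at h1'
  change 1 ≤ _ ∧ _ ≤ 1 + 0 at h2'
  omega

theorem binT_T0 {r : ℕ} (c : Fin (r + 1) → C) (m : SimplexCategory) :
    binT (T0 C) c m = E0bin c m := by
  refine Sb.ext (funext fun η => funext fun k => Set.ext fun z => ?_)
  change z ∈ (Sb.range _).mem η k ∨ z ∈ (Sb.range _).mem η k ↔ _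
  rw [mem_range_inert (inert_init c), mem_range_inert (inert_last c)]
  change _ ↔ (∀ t, (Wr.Hom.f (z.1 : η.unop ⟶ (⟨r + 1, c⟩ : Wr C)) t).1 ≤ r) ∨
    ∀ t, r ≤ (Wr.Hom.f (z.1 : η.unop ⟶ (⟨r + 1, c⟩ : Wr C)) t).1
  refine or_congr (forall_congr' fun t => ?_) (forall_congr' fun t => ?_)
  · change 0 ≤ _ ∧ _ ≤ 0 + r ↔ _
    omega
  · have := (Wr.Hom.f (z.1 : η.unop ⟶ (⟨r + 1, c⟩ : Wr C)) t).isLt
    change _ < r + 1 + 1 at this
    change r ≤ _ ∧ _ ≤ r + 1 ↔ _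
    omega

end

end Pool.Agent.Helper43.FL2
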