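import Pool.Agent.Helper43.FL2.Tube
import Pool.Agent.Helper43.FL2.Good0

/-!
# FL2-C1a: lifting edges
-/

open CategoryTheory MonoidalCategory Opposite Simplicial

set_option autoImplicit false

namespace Pool.Agent.Helper43.FL2

open FL

noncomputable section

/-- The facts of section G1 which are used here. -/
structure G1F {A : Type} [SmallCategory A] (X : SP A) : Prop where
  isIso : ∀ {P Q : SP A} (f : P ⟶ Q) [IsIso f], Loc X f
  comp : ∀ {P Q R : SP A} {f : P ⟶ Q} {g : Q ⟶ R}, Loc X f → Loc X g → Loc X (f ≫ g)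
  comp_right : ∀ {P Q R : SP A} {f : P ⟶ Q} {g : Q ⟶ R}, Loc X g → Loc X (f ≫ g) → Loc X f
  sdr : ∀ {P Q : SP A} {f : P ⟶ Q}, SDR f → Loc X f
  extend : ∀ {P Q : SP A} (i : P ⟶ Q), (∀ a, Mono (i.app a)) → Loc X i → ∀ g : P ⟶ X,
    ∃ g' : Q ⟶ X, i ≫ g' = g
  restr_sup : ∀ {P Q : SP A} (f : P ⟶ Q) (S T : Sb P) (S' T' : Sb Q)
    (hS : ∀ (a : Aᵒᵖ) (k : SimplexCategoryᵒᵖ) (x : (P.obj a).obj k),
      x ∈ S.mem a k → (f.app a).app k x ∈ S'.mem a k)
    (hT : ∀ (a : Aᵒᵖ) (k : SimplexCategoryᵒᵖ) (x : (P.obj a).obj k),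
      x ∈ T.mem a k → (f.app a).app k x ∈ T'.mem a k),
    Loc X (Sb.restr f S S' hS) → Loc X (Sb.restr f T T' hT) →
    Loc X (Sb.restr f (S ⊓ T) (S' ⊓ T') fun a k x hx => ⟨hS a k x hx.1, hT a k x hx.2⟩) →
    Loc X (Sb.restr f (S ⊔ T) (S' ⊔ T') fun a k x hx =>
      hx.elim (fun h => Or.inl (hS a k x h)) fun h => Or.inr (hT a k x h))

section Tube

variable {A : Type} [SmallCategory A] {P X : SP A}

/-- `S ⊗ Δ[1]`. -/
def tube (S : Sb P) : Sb (tn P Δ[1]) where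
  mem a k := { z | z.1 ∈ S.mem a k }
  mapA f k z h := S.mapA f k z.1 h
  mapk a _ _ α z h := S.mapk a α z.1 h

/-- `S ⊗ {v}`. -/
def capS (S : Sb P) (v : Fin 2) : Sb (tn P Δ[1]) where
  mem a k := { z | z.1 ∈ S.mem a k ∧ z.2 = cv v k }
  mapA f k z h := ⟨S.mapA f k z.1 h.1, h.2⟩
  mapk a k l α z h := ⟨S.mapk a α z.1 h.1, by
    change (Δ[1] : SSet.{0}).map α z.2 = _
    rw [h.2]
    rfl⟩

theorem loc_tube (G : G1F X) (S T : Sb P) (v : Fin 2) (h : LocT X (S ⊔ T) ⊤) :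
    LocT X (tube S ⊔ capS T v) ⊤ := by
  obtain ⟨h0, h1⟩ := h
  refine ⟨le_top, ?_⟩
  have hr1 : ∀ (a : Aᵒᵖ) (k : SimplexCategoryᵒᵖ) (z : ((tn P Δ[1]).obj a).obj k),
      z ∈ (tube S).mem a k → ((prj P Δ[1]).app a).app k z ∈ S.mem a k := fun a k z hz => hz
  have hr2 : ∀ (a : Aᵒᵖ) (k : SimplexCategoryᵒᵖ) (z : ((tn P Δ[1]).obj a).obj k),
      z ∈ (capS T v).mem a k → ((prj P Δ[1]).app a).app k z ∈ T.mem a k := fun a k z hz => hz.1
  have hr3 : ∀ (a : Aᵒᵖ) (k : SimplexCategoryᵒᵖ) (z : ((tn P Δ[1]).obj a).obj k),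
      z ∈ (⊤ : Sb (tn P Δ[1])).mem a k → ((prj P Δ[1]).app a).app k z ∈ (⊤ : Sb P).mem a k :=
    fun a k z hz => trivial
  have l1 : Loc X (Sb.restr (prj P Δ[1]) (tube S) S hr1) :=
    G.sdr (prj_sdr _ _ (fun _ _ _ _ => Iff.rfl) _)
  have l3 : Loc X (Sb.restr (prj P Δ[1]) ⊤ ⊤ hr3) :=
    G.sdr (prj_sdr _ _ (fun _ _ _ _ => Iff.rfl) _)
  have l2 : Loc X (Sb.restr (prj P Δ[1]) (capS T v) T hr2) := by
    have := prj_iso (capS T v) T v (fun a k x hx => ⟨hx, rfl⟩) (fun a k z hz => hz.2) hr2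
    exact G.isIso _
  have l12 : Loc X (Sb.restr (prj P Δ[1]) (tube S ⊓ capS T v) (S ⊓ T)
      fun a k x hx => ⟨hr1 a k x hx.1, hr2 a k x hx.2⟩) := by
    have := prj_iso (tube S ⊓ capS T v) (S ⊓ T) v (fun a k x hx => ⟨hx.1, hx.2, rfl⟩)
      (fun a k z hz => hz.2.2) (fun a k x hx => ⟨hr1 a k x hx.1, hr2 a k x hx.2⟩)
    exact G.isIso _
  have l4 := G.restr_sup (prj P Δ[1]) (tube S) (capS T v) S T
    hr1 hr2 l1 l2 l12
  have e : Sb.ofLE (le_top (a := tube S ⊔ capS T v)) ≫ Sb.restr (prj P Δ[1]) ⊤ ⊤ hr3 =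
    Sb.restr (prj P Δ[1]) (tube S ⊔ capS T v) (S ⊔ T) (fun a k x hx =>
      hx.elim (fun h => Or.inl (hr1 a k x h)) fun h => Or.inr (hr2 a k x h)) ≫
      Sb.ofLE h0 := rfl
  refine G.comp_right l3 ?_
  rw [e]
  exact G.comp l4 h1

/-- The extension property. -/
theorem extend_tube (G : G1F X) (S T : Sb P) (v : Fin 2) (h : LocT X (S ⊔ T) ⊤)
    (f : (tube S).toSP ⟶ X) (g : (capS T v).toSP ⟶ X)
    (hfg : ∀ (a : Aᵒᵖ) (k : SimplexCategoryᵒᵖ) (x : ((tn P Δ[1]).obj a).obj k)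
      (hx : x ∈ (tube S).mem a k) (hx' : x ∈ (capS T v).mem a k),
      (f.app a).app k ⟨x, hx⟩ = (g.app a).app k ⟨x, hx'⟩) :
    ∃ F : tn P Δ[1] ⟶ X,
      (∀ (a : Aᵒᵖ) (k : SimplexCategoryᵒᵖ) (x : ((tn P Δ[1]).obj a).obj k)
        (hx : x ∈ (tube S).mem a k), (F.app a).app k x = (f.app a).app k ⟨x, hx⟩) ∧
      ∀ (a : Aᵒᵖ) (k : SimplexCategoryᵒᵖ) (x : ((tn P Δ[1]).obj a).obj k)
        (hx : x ∈ (capS T v).mem a k), (F.app a).app k x = (g.app a).app k ⟨x, hx⟩ := by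
  obtain ⟨G0, hG1, hG2⟩ := glue (tube S) (capS T v) f g hfg
  obtain ⟨h0, h1⟩ := loc_tube G S T v h
  obtain ⟨G', hG'⟩ := G.extend (Sb.ofLE h0) (fun a => by
    rw [NatTrans.mono_iff_mono_app]
    intro k
    rw [mono_iff_injective]
    intro x y hxy
    exact Subtype.ext (congrArg (fun z : { x : ((tn P Δ[1]).obj a).obj k //
      x ∈ (⊤ : Sb (tn P Δ[1])).mem a k } => z.1) hxy)) h1 G0
  refine ⟨{ app := fun a =>
              { app := fun k => ↾ fun x => (G'.app a).app k ⟨x, trivial⟩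
                naturality := fun k _ α => by
                  refine ConcreteCategory.hom_ext _ _ fun x => ?_
                  exact hom_natk G' α (⟨x, trivial⟩ : { x : ((tn P Δ[1]).obj a).obj k //
                    x ∈ (⊤ : Sb (tn P Δ[1])).mem a k }) }
            naturality := fun a _ u => by
              refine NatTrans.ext (funext fun k => ?_)
              refine ConcreteCategory.hom_ext _ _ fun x => ?_
              exact hom_nat G' u (⟨x, trivial⟩ : { x : ((tn P Δ[1]).obj a).obj k //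
                x ∈ (⊤ : Sb (tn P Δ[1])).mem a k }) }, ?_, ?_⟩
  · intro a k x hx
    refine Eq.trans ?_ (hG1 a k x hx)
    exact ConcreteCategory.congr_hom (NatTrans.congr_app (NatTrans.congr_app hG' a) k)
      (⟨x, Or.inl hx⟩ : { x // x ∈ (tube S ⊔ capS T v).mem a k })
  · intro a k x hx
    refine Eq.trans ?_ (hG2 a k x hx)
    exact ConcreteCategory.congr_hom (NatTrans.congr_app (NatTrans.congr_app hG' a) k)
      (⟨x, Or.inr hx⟩ : { x // x ∈ (tube S ⊔ capS T v).mem a k })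

/-- The simplex of the mapping space given by a map from the tensor. -/
@[simps]
def ofTn {Y : SP A} {m : SimplexCategory} (F : tn Y (SSet.stdSimplex.obj m) ⟶ X) :
    MpS Y X m where
  app a k s x := (F.app a).app k (x, SSet.stdSimplex.objEquiv.symm s)
  nat_left f _ s x := hom_nat F f (x, SSet.stdSimplex.objEquiv.symm s)
  nat_right _ _ _ g s x := hom_natk F g (x, SSet.stdSimplex.objEquiv.symm s)

end Tube

section Main

variable {C : Type} [SmallCategory C] {X : SP (Wr C)}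

/-- The words which are constant. -/
def cwS (P : SP (Wr C)) (v : Fin 2) : Sb (E0o P ⦋1⦌) where
  mem _ _ := { z | ∀ i, z.2 i = v }
  mapA _ _ _ h _ := h _
  mapk _ _ _ _ _ h := h

/-- The simplices with first component in `S`. -/
def fstS {P : SP (Wr C)} (S : Sb P) (m : SimplexCategory) : Sb (E0o P m) where
  mem θ k := { z | z.1 ∈ S.mem θ k }
  mapA φ k z h := S.mapA φ k z.1 h
  mapk θ _ _ α z h := S.mapk θ α z.1 h

theorem E0rel_eq {P : SP (Wr C)} (S : Sb P) (v : Fin 2) :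
    E0rel S ⦋1⦌ v = fstS S ⦋1⦌ ⊔ cwS P v := rfl

theorem vertex_eq {c : C} {η : Wr C} (φ : η ⟶ seg c) (j : Fin 2)
    (h : ∀ t, Wr.Hom.f φ t = j) : Wr.toPt η ≫ vtx (seg c) j = φ := by
  obtain ⟨ψ, hψ⟩ := (inert_vtx (seg c) j).factor φ (fun t => by
    rw [h t]
    change j.val ≤ j.val ∧ j.val ≤ j.val + 0
    omega)
  rw [← hψ, Wr.toPt_unique ψ (Wr.toPt η)]

/-- The map on the part lying over the vertices. -/
def fV (c : C) (ee : Fin 2 → MpS (E0o (rep (Wr.pt : Wr C)) ⦋1⦌) X ⦋1⦌) :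
    (tube (fstS (vert (seg c)) ⦋1⦌)).toSP ⟶ X where
  app η :=
    { app := fun k => ↾ fun z =>
        (ee (Wr.Hom.f (z.1.1.1 : η.unop ⟶ seg c) 0)).app η k
          (SSet.stdSimplex.objEquiv z.1.2) (Wr.toPt η.unop, z.1.1.2)
      naturality := fun k l α => by
        refine ConcreteCategory.hom_ext _ _ fun z => ?_
        exact (ee (Wr.Hom.f (z.1.1.1 : η.unop ⟶ seg c) 0)).nat_right η α
          (SSet.stdSimplex.objEquiv z.1.2) (Wr.toPt η.unop, z.1.1.2) }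
  naturality η η' u := by
    refine NatTrans.ext (funext fun k => ?_)
    refine ConcreteCategory.hom_ext _ _ fun z => ?_
    obtain ⟨j, hj⟩ := z.2
    have e1 : Wr.Hom.f (z.1.1.1 : η.unop ⟶ seg c) 0 = j := hj 0
    have e2 : Wr.Hom.f (u.unop ≫ (z.1.1.1 : η.unop ⟶ seg c)) 0 = j := hj _
    refine Eq.trans ?_ ((ee (Wr.Hom.f (z.1.1.1 : η.unop ⟶ seg c) 0)).nat_left u k
      (SSet.stdSimplex.objEquiv z.1.2) (Wr.toPt η.unop, z.1.1.2))
    change (ee (Wr.Hom.f (u.unop ≫ (z.1.1.1 : η.unop ⟶ seg c)) 0)).app η' k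
      (SSet.stdSimplex.objEquiv z.1.2) (Wr.toPt η'.unop,
        fun i => z.1.1.2 (Wr.Hom.f u.unop i)) =
      (ee (Wr.Hom.f (z.1.1.1 : η.unop ⟶ seg c) 0)).app η' k
      (SSet.stdSimplex.objEquiv z.1.2) ((u.unop ≫ Wr.toPt η.unop :
        η'.unop ⟶ (Wr.pt : Wr C)), fun i => z.1.1.2 (Wr.Hom.f u.unop i))
    rw [e1, e2, Wr.toPt_unique (u.unop ≫ Wr.toPt η.unop) (Wr.toPt η'.unop)]

/-- The map on the part lying over the vertex `v`. -/
def gV (c : C) (v : Fin 2) (g : MpS (E0o (rep (seg c)) ⦋0⦌) X ⦋0⦌) :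
    (capS (cwS (rep (seg c)) v) v).toSP ⟶ X where
  app η :=
    { app := fun k => ↾ fun z =>
        g.app η k (SimplexCategory.const k.unop ⦋0⦌ 0)
          ((z.1.1.1 : η.unop ⟶ seg c), fun _ => (0 : Fin 1))
      naturality := fun k l α => by
        refine ConcreteCategory.hom_ext _ _ fun z => ?_
        exact g.nat_right η α (SimplexCategory.const k.unop ⦋0⦌ 0)
          ((z.1.1.1 : η.unop ⟶ seg c), fun _ => (0 : Fin 1)) }
  naturality η η' u := by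
    refine NatTrans.ext (funext fun k => ?_)
    refine ConcreteCategory.hom_ext _ _ fun z => ?_
    exact g.nat_left u k (SimplexCategory.const k.unop ⦋0⦌ 0)
      ((z.1.1.1 : η.unop ⟶ seg c), fun _ => (0 : Fin 1))

/-- Edges lift along `ends (Kf (T0 C) X) c`. -/
theorem edge_T0 (G : G1F X) (c : C) (v : Fin 2)
    (hloc : LocT X (E0rel (vert (seg c)) ⦋1⦌ v) ⊤) :
    HasLiftingProperty (SSet.horn.{0} 1 v).ι (ends (Kf (T0 C) X) c) := by
  refine hlp_one _ v fun (g : MpS (E0o (rep (seg c)) ⦋0⦌) X ⦋0⦌)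
    (e : MpS (E0o (rep (Wr.pt : Wr C)) ⦋1⦌) X ⦋1⦌ × MpS (E0o (rep (Wr.pt : Wr C)) ⦋1⦌) X ⦋1⦌)
    hge => ?_
  let ee : Fin 2 → MpS (E0o (rep (Wr.pt : Wr C)) ⦋1⦌) X ⦋1⦌ := fun j =>
    if j = 0 then e.1 else e.2
  have hee0 : ee 0 = e.1 := rfl
  have hee1 : ee 1 = e.2 := rfl
  have H : ∀ (j : Fin 2) (η : (Wr C)ᵒᵖ) (k : SimplexCategoryᵒᵖ) (s : k.unop ⟶ ⦋0⦌)
      (φ : η.unop ⟶ (Wr.pt : Wr C)) (w : Fin (η.unop.len + 1) → Fin 1),
      g.app η k s ((φ ≫ vtx (seg c) j : η.unop ⟶ seg c), w) =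
        (ee j).app η k (s ≫ SimplexCategory.const ⦋0⦌ ⦋1⦌ v) (φ, fun _ => v) := by
    intro j η k s φ w
    fin_cases j
    · exact congrArg (fun z : MpS (E0o (rep (Wr.pt : Wr C)) ⦋0⦌) X ⦋0⦌ =>
        z.app η k s (φ, w)) (congrArg Prod.fst hge)
    · exact congrArg (fun z : MpS (E0o (rep (Wr.pt : Wr C)) ⦋0⦌) X ⦋0⦌ =>
        z.app η k s (φ, w)) (congrArg Prod.snd hge)
  obtain ⟨F, hF1, hF2⟩ := extend_tube G (fstS (vert (seg c)) ⦋1⦌) (cwS (rep (seg c)) v) v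
    hloc (fV c ee) (gV c v g) (by
      intro η k x hx hx'
      obtain ⟨j, hj⟩ := hx
      have hj0 : Wr.Hom.f (x.1.1 : η.unop ⟶ seg c) 0 = j := hj 0
      have h1 := H j η k (SimplexCategory.const k.unop ⦋0⦌ 0) (Wr.toPt η.unop)
        (fun _ => (0 : Fin 1))
      have h2 : (Wr.toPt η.unop ≫ vtx (seg c) j : η.unop ⟶ seg c) = x.1.1 :=
        vertex_eq _ j hj
      rw [h2] at h1
      refine Eq.trans ?_ h1.symm
      change (ee (Wr.Hom.f (x.1.1 : η.unop ⟶ seg c) 0)).app η k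
          (SSet.stdSimplex.objEquiv x.2) (Wr.toPt η.unop, x.1.2) = _
      have h3 : x.1.2 = fun _ => v := funext hx'.1
      have h4 : x.2 = cv v k := hx'.2
      rw [hj0, h3, h4]
      rfl)
  refine ⟨(ofTn F : MpS (E0o (rep (seg c)) ⦋1⦌) X ⦋1⦌), ?_, ?_⟩
  · have key : ∀ j : Fin 2, (MpS.ofHom ⦋1⦌ (((T0 C).map (vtx (seg c) j)).app ⦋1⦌)).comp
        (ofTn F : MpS (E0o (rep (seg c)) ⦋1⦌) X ⦋1⦌) = ee j := by
      intro j
      refine MpS.ext (funext fun η => funext fun k => funext fun s => funext fun x => ?_)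
      obtain ⟨φ, w⟩ := x
      refine (hF1 η k (((φ ≫ vtx (seg c) j : η.unop ⟶ seg c), w),
        SSet.stdSimplex.objEquiv.symm s) ⟨j, fun t => rfl⟩).trans ?_
      change (ee j).app η k s (Wr.toPt η.unop, w) = (ee j).app η k s (φ, w)
      rw [Wr.toPt_unique φ (Wr.toPt η.unop)]
    exact Prod.ext (key 0) (key 1)
  · refine MpS.ext (funext fun η => funext fun k => funext fun s => funext fun x => ?_)
    obtain ⟨φ, w⟩ := x
    have hs : s ≫ SimplexCategory.const ⦋0⦌ ⦋1⦌ v = SimplexCategory.const k.unop ⦋1⦌ v := rfl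
    refine (hF2 η k (((φ : η.unop ⟶ seg c), fun _ => v),
        SSet.stdSimplex.objEquiv.symm (s ≫ SimplexCategory.const ⦋0⦌ ⦋1⦌ v))
        ⟨fun _ => rfl, rfl⟩).trans ?_
    change g.app η k (SimplexCategory.const k.unop ⦋0⦌ 0) (φ, fun _ => (0 : Fin 1)) =
      g.app η k s (φ, w)
    have h1 : s = SimplexCategory.const k.unop ⦋0⦌ 0 := by
      ext i : 3
      exact Subsingleton.elim (α := Fin 1) _ _
    have h2 : w = fun _ => (0 : Fin 1) := funext fun i => Subsingleton.elim (α := Fin 1) _ _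
    rw [h1, h2]

/-- The frame `T0` is good, with the locality statements of H5 as hypotheses. -/
theorem goodFr_T0_of (G : G1F X)
    (ext_T0 : ∀ θ : Wr C, Ext X ((T0 C).obj θ))
    (E0rel_seg : ∀ (c : C) (m : SimplexCategory) (v : Fin (m.len + 1)),
      LocT X (E0rel (vert (seg c)) m v) ⊤)
    (E0bin_loc : ∀ {r : ℕ} (c : Fin (r + 1) → C) (m : SimplexCategory),
      LocT X (E0bin c m) ⊤) : GoodFr X (T0 C) where
  ext := ext_T0
  mono_init c m a := mono_T0 (inert_init c) m a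
  mono_last c m a := mono_T0 (inert_last c) m a
  inter c m := inter_T0 c m
  mono_vtx θ i m a := mono_T0 (inert_vtx θ i) m a
  disj c m := disj_T0 c m
  bin c m := by
    rw [binT_T0]
    exact E0bin_loc c m
  edge c i := edge_T0 G c i (E0rel_seg c ⦋1⦌ i)

end Main

/-- Constant cosimplicial objects satisfy the gluing condition. -/
theorem ext_cc_of {A : Type} [SmallCategory A] (X P : SP A)
    (locT_refl : ∀ {Q : SP A} (S : Sb Q), LocT X S S) : Ext X (cc P) := by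
  intro N S S' v hv
  have key : ∀ U : Finset (Fin (N.len + 1)), U.Nonempty → fface (cc P) U = ⊤ := by
    rintro U ⟨u, hu⟩
    refine le_antisymm le_top ?_
    intro a k x _
    exact ⟨⦋0⦌, SimplexCategory.const ⦋0⦌ N u, x, fun _ => hu, rfl⟩
  have hvS : v ∈ S ∧ v ∈ S' := Finset.mem_inter.1 (hv ▸ Finset.mem_singleton_self v)
  rw [key S ⟨v, hvS.1⟩, key S' ⟨v, hvS.2⟩,
    key (S ∪ S') ⟨v, Finset.mem_union_left _ hvS.1⟩, sup_idem]
  exact locT_refl _

end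

end Pool.Agent.Helper43.FL2
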