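import Pool.Agent.Helper43.FL2.TransferMain
import Pool.Agent.Helper43.FL2.Edge
import Pool.Agent.Helper44.FL2.E0Loc

/-!
# FL2-C1a: the frame `T0` is good (final form), and the final forms of section H5
-/

open CategoryTheory MonoidalCategory Opposite

set_option autoImplicit false

namespace Pool.Agent.Helper43.FL2

open FL

variable {C : Type} [SmallCategory C]

theorem transfer {X : SP (Wr C)} (hX : InjFib X) (hS : SpLoc X) :
    Pool.Agent.Helper44.FL2.Transfer X :=
  fun B _ _ i hi s => Ph_transfer hX hS B i hi s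

theorem g1F {A : Type} [SmallCategory A] {X : SP A} (hX : InjFib X) : G1F X where
  isIso f _ := Pool.Agent.Helper45.LOC.loc_of_isIso f
  comp hf hg := Pool.Agent.Helper45.LOC.loc_comp hX hf hg
  comp_right hg hfg := Pool.Agent.Helper45.LOC.loc_of_comp_right hX hg hfg
  sdr hf := Pool.Agent.Helper45.LOC.loc_of_sdr hf
  extend i hi h g := Pool.Agent.Helper45.LOC.loc_extend hX i hi h g
  restr_sup f S T S' T' hS hT h1 h2 h12 :=
    Pool.Agent.Helper45.LOC.loc_restr_sup hX f S T S' T' hS hT h1 h2 h12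

theorem ext_T0 {X : SP (Wr C)} (hX : InjFib X) (hS : SpLoc X) (θ : Wr C) :
    Ext X ((T0 C).obj θ) :=
  Pool.Agent.Helper44.FL2.ext_T0_of (transfer hX hS) θ

theorem E0rel_seg {X : SP (Wr C)} (hX : InjFib X) (hS : SpLoc X) (c : C) (m : SimplexCategory)
    (v : Fin (m.len + 1)) : LocT X (E0rel (vert (seg c)) m v) ⊤ :=
  Pool.Agent.Helper44.FL2.E0rel_seg_of (transfer hX hS) c m v

theorem E0bin_loc {X : SP (Wr C)} (hX : InjFib X) (hS : SpLoc X) {r : ℕ}
    (c : Fin (r + 1) → C) (m : SimplexCategory) : LocT X (E0bin c m) ⊤ :=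
  Pool.Agent.Helper44.FL2.E0bin_loc_of (transfer hX hS) c m

theorem goodFr_T0 {X : SP (Wr C)} (hX : InjFib X) (hS : SpLoc X) : GoodFr X (T0 C) :=
  goodFr_T0_of (g1F hX) (ext_T0 hX hS) (E0rel_seg hX hS) (fun c m => E0bin_loc hX hS c m)

theorem ext_cc {A : Type} [SmallCategory A] (X P : SP A) : Ext X (cc P) :=
  ext_cc_of X P fun S => Pool.Agent.Helper45.LOC.locT_refl S

end Pool.Agent.Helper43.FL2
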