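import Pool.Agent.Helper58.FL2.Flag2
import Pool.Agent.Helper45.FL.Triv

/-!
# Module FL2-H4: inner anodyne extensions induce local maps
-/

open CategoryTheory MonoidalCategory Opposite

set_option autoImplicit false

namespace Pool.Agent.Helper43.FL2

open FL

noncomputable section

variable {C : Type} [SmallCategory C]

/-- The element of `V[r](B)` attached to an element of its pullback. -/
@[simps]
def toVS {r : ℕ} {B : Fin r → SP C} {N : SSet.{0}}
    {s : N ⟶ SSet.stdSimplex.obj (SimplexCategory.mk r)} {θ : Wr C} {k : SimplexCategoryᵒᵖ}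
    (u : PhS B s θ k) : VS B θ k where
  f := sh s u.x
  g := u.g

/-- Elements of the pullback. -/
@[simps]
def mkPh {r : ℕ} {B : Fin r → SP C} {N : SSet.{0}}
    {s : N ⟶ SSet.stdSimplex.obj (SimplexCategory.mk r)} {θ : Wr C} {k : SimplexCategoryᵒᵖ}
    (x : N.obj (op (SimplexCategory.mk θ.len))) (v : VS B θ k) (h : v.f = sh s x) :
    PhS B s θ k where
  x := x
  g i j hij := v.g i j (h ▸ hij)

lemma toVS_mapk {r : ℕ} {B : Fin r → SP C} {N : SSet.{0}}
    {s : N ⟶ SSet.stdSimplex.obj (SimplexCategory.mk r)} {θ : Wr C} {k l : SimplexCategoryᵒᵖ}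
    (α : k ⟶ l) (u : PhS B s θ k) : toVS (u.mapk α) = (toVS u).mapk α := rfl

lemma toVS_mapθ {r : ℕ} {B : Fin r → SP C} {N : SSet.{0}}
    {s : N ⟶ SSet.stdSimplex.obj (SimplexCategory.mk r)} {θ θ' : Wr C}
    {k : SimplexCategoryᵒᵖ} (φ : θ' ⟶ θ) (u : PhS B s θ k) :
    toVS (u.mapθ φ) = (toVS u).mapθ φ := by
  refine VS.ext' (sh_map s (Wr.Hom.f φ) u.x) fun i l h h' => ?_
  obtain ⟨j, hj, hj'⟩ := Jump.split (f := Wr.Hom.f φ) (g := sh s u.x) h'
  refine (PhS.mapθ_g φ u hj hj' h).trans ?_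
  exact (VS.mapθ_g φ (toVS u) hj hj').symm

lemma mkPh_mapk {r : ℕ} {B : Fin r → SP C} {N : SSet.{0}}
    {s : N ⟶ SSet.stdSimplex.obj (SimplexCategory.mk r)} {θ : Wr C} {k l : SimplexCategoryᵒᵖ}
    (α : k ⟶ l) (x : N.obj (op (SimplexCategory.mk θ.len))) (v : VS B θ k) (h : v.f = sh s x) :
    (mkPh x v h).mapk α = mkPh x (v.mapk α) h := rfl

lemma mkPh_mapθ {r : ℕ} {B : Fin r → SP C} {N : SSet.{0}}
    {s : N ⟶ SSet.stdSimplex.obj (SimplexCategory.mk r)} {θ θ' : Wr C}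
    {k : SimplexCategoryᵒᵖ} (φ : θ' ⟶ θ) (x : N.obj (op (SimplexCategory.mk θ.len)))
    (v : VS B θ k) (h : v.f = sh s x)
    (h' : (v.mapθ φ).f = sh s (N.map ((kap C).map φ).op x)) :
    (mkPh x v h).mapθ φ = mkPh (N.map ((kap C).map φ).op x) (v.mapθ φ) h' := by
  refine PhS.ext' rfl fun i l h1 h2 => ?_
  obtain ⟨f, g⟩ := v
  obtain rfl : f = sh s x := h
  obtain ⟨j, hj, hj'⟩ := Jump.split (f := Wr.Hom.f φ) (g := sh s x)
    (PhS.jump_aux φ x h1)
  refine (PhS.mapθ_g φ _ hj hj' h1).trans ?_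
  exact (VS.mapθ_g φ (⟨sh s x, g⟩ : VS B θ k) hj hj').symm

lemma mkPh_congr {r : ℕ} {B : Fin r → SP C} {N : SSet.{0}}
    {s : N ⟶ SSet.stdSimplex.obj (SimplexCategory.mk r)} {θ : Wr C} {k : SimplexCategoryᵒᵖ}
    {x x' : N.obj (op (SimplexCategory.mk θ.len))} (hx : x = x') (v : VS B θ k)
    (h : v.f = sh s x) (h' : v.f = sh s x') : mkPh x v h = mkPh x' v h' := by
  subst hx
  rfl

/-- Restriction of simplices along an order preserving map. -/
abbrev rs (N : SSet.{0}) {m m' : ℕ} (α : Fin (m' + 1) →o Fin (m + 1))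
    (x : N.obj (op (SimplexCategory.mk m))) : N.obj (op (SimplexCategory.mk m')) :=
  N.map (Quiver.Hom.op (SimplexCategory.Hom.mk α :
    SimplexCategory.mk m' ⟶ SimplexCategory.mk m)) x

lemma rs_rs (N : SSet.{0}) {m m' m'' : ℕ} (α : Fin (m' + 1) →o Fin (m + 1))
    (β : Fin (m'' + 1) →o Fin (m' + 1)) (x : N.obj (op (SimplexCategory.mk m))) :
    rs N β (rs N α x) = rs N (α.comp β) x :=
  (sset_comp N (Quiver.Hom.op (SimplexCategory.Hom.mk α :
    SimplexCategory.mk m' ⟶ SimplexCategory.mk m)) (Quiver.Hom.op (SimplexCategory.Hom.mk β :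
    SimplexCategory.mk m'' ⟶ SimplexCategory.mk m')) x).symm

/-! ### The simplicial set of partial maps -/

section ES

variable {r : ℕ} (B : Fin r → SP C) (X : SP (Wr C)) (K : SSet.{0})

/-- An `m`-simplex: an `m`-simplex `σ` of `Δ[r]` and a map `Ph B σ ⊗ K ⟶ X`, written out. -/
structure ES (m : ℕ) : Type where
  σ : Fin (m + 1) →o Fin (r + 1)
  φ : ∀ (θ : Wr C) (l : SimplexCategoryᵒᵖ) (_ : K.obj l) (α : Fin (θ.len + 1) →o Fin (m + 1))
    (v : VS B θ l), v.f = σ.comp α → (X.obj (op θ)).obj l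
  natθ : ∀ {θ θ' : Wr C} (g : θ' ⟶ θ) (l : SimplexCategoryᵒᵖ) (κ : K.obj l)
    (α : Fin (θ.len + 1) →o Fin (m + 1)) (v : VS B θ l) (h : v.f = σ.comp α)
    (h' : (v.mapθ g).f = σ.comp (α.comp (Wr.Hom.f g))),
    φ θ' l κ (α.comp (Wr.Hom.f g)) (v.mapθ g) h' = (X.map g.op).app l (φ θ l κ α v h)
  natk : ∀ (θ : Wr C) {l l' : SimplexCategoryᵒᵖ} (β : l ⟶ l') (κ : K.obj l)
    (α : Fin (θ.len + 1) →o Fin (m + 1)) (v : VS B θ l) (h : v.f = σ.comp α),
    φ θ l' (K.map β κ) α (v.mapk β) h = (X.obj (op θ)).map β (φ θ l κ α v h)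

variable {B X K}

theorem ES.ext' {m : ℕ} {a b : ES B X K m} (h : a.σ = b.σ)
    (h' : ∀ θ l κ α v (h1 : v.f = a.σ.comp α) (h2 : v.f = b.σ.comp α),
      a.φ θ l κ α v h1 = b.φ θ l κ α v h2) : a = b := by
  obtain ⟨σ, φ, _, _⟩ := a
  obtain ⟨σ', φ', _, _⟩ := b
  obtain rfl : σ = σ' := h
  congr 1
  funext θ l κ α v h
  exact h' θ l κ α v h h

theorem ES.φ_congr {m : ℕ} {a b : ES B X K m} (h : a = b) {θ : Wr C} {l : SimplexCategoryᵒᵖ}
    {κ : K.obj l} {α : Fin (θ.len + 1) →o Fin (m + 1)} {v v' : VS B θ l} (hv : v = v')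
    (h1 : v.f = a.σ.comp α) (h2 : v'.f = b.σ.comp α) :
    a.φ θ l κ α v h1 = b.φ θ l κ α v' h2 := by
  subst h hv
  rfl

/-- Restriction. -/
@[simps]
def ES.res {m m' : ℕ} (a : ES B X K m) (β : Fin (m' + 1) →o Fin (m + 1)) : ES B X K m' where
  σ := a.σ.comp β
  φ θ l κ α v h := a.φ θ l κ (β.comp α) v h
  natθ g l κ α v h h' := a.natθ g l κ (β.comp α) v h h'
  natk θ _ _ γ κ α v h := a.natk θ γ κ (β.comp α) v h

variable (B X K)

/-- The simplicial set `E_K`. -/
def EE : SSet.{0} where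
  obj m := ES B X K m.unop.len
  map α := ↾ fun a => a.res α.unop.toOrderHom
  map_id _ := rfl
  map_comp _ _ := rfl

/-- The projection to `Δ[r]`. -/
def EEpr : EE B X K ⟶ SSet.stdSimplex.obj (SimplexCategory.mk r) where
  app _ := ↾ fun a => SSet.stdSimplex.objEquiv.symm (SimplexCategory.Hom.mk (ES.σ a))
  naturality _ _ _ := rfl

variable {K}

/-- Functoriality in `K`. -/
def EEres {L : SSet.{0}} (j : K ⟶ L) : EE B X L ⟶ EE B X K where
  app m := ↾ fun (a : ES B X L m.unop.len) =>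
    ({ σ := a.σ
       φ := fun θ l κ α v h => a.φ θ l (j.app l κ) α v h
       natθ := fun g l κ α v h h' => a.natθ g l (j.app l κ) α v h h'
       natk := fun θ {l l'} β κ α v h => by
        refine Eq.trans ?_ (a.natk θ β (j.app l κ) α v h)
        exact congrArg (fun t => a.φ θ l' t α (v.mapk β) h) (sset_nat j β κ) } :
      ES B X K m.unop.len)
  naturality _ _ _ := rfl

theorem EEres_pr {L : SSet.{0}} (j : K ⟶ L) : EEres B X j ≫ EEpr B X K = EEpr B X L := rfl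

variable {B X}

/-- The value of `toE` on a simplex. -/
@[simps]
def toES {N : SSet.{0}} {s : N ⟶ SSet.stdSimplex.obj (SimplexCategory.mk r)}
    (f : tn (Ph B s) K ⟶ X) {m : ℕ} (x : N.obj (op (SimplexCategory.mk m))) : ES B X K m where
  σ := sh s x
  φ θ l κ α v h := (f.app (op θ)).app l
    (mkPh (s := s) (rs N α x) v (h.trans (sh_map s α x).symm), κ)
  natθ {θ θ'} g l κ α v h h' := by
    have h1 : v.f = sh s (rs N α x) := h.trans (sh_map s α x).symm
    have h2 : (v.mapθ g).f = sh s (rs N (Wr.Hom.f g) (rs N α x)) := by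
      refine h'.trans (Eq.trans ?_ (sh_map s (Wr.Hom.f g) (rs N α x)).symm)
      exact (congrArg (fun t => OrderHom.comp t (Wr.Hom.f g)) (sh_map s α x)).symm
    refine Eq.trans ?_ (hom_nat f g.op (mkPh (s := s) (rs N α x) v h1, κ))
    refine congrArg ((f.app (op θ')).app l) (Prod.ext ?_ rfl)
    refine Eq.trans ?_ (mkPh_mapθ (s := s) g (rs N α x) v h1 h2).symm
    exact mkPh_congr (rs_rs N α (Wr.Hom.f g) x).symm (v.mapθ g)
      (h'.trans (sh_map s (α.comp (Wr.Hom.f g)) x).symm) h2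
  natk θ {l l'} β κ α v h :=
    hom_natk f β (mkPh (s := s) (rs N α x) v (h.trans (sh_map s α x).symm), κ)

/-- Maps `Ph B s ⊗ K ⟶ X` are maps `N ⟶ E_K` over `Δ[r]`. -/
def toE {N : SSet.{0}} {s : N ⟶ SSet.stdSimplex.obj (SimplexCategory.mk r)}
    (f : tn (Ph B s) K ⟶ X) : N ⟶ EE B X K where
  app m := ↾ fun (x : N.obj m) => toES f (m := m.unop.len) x
  naturality m m' β := by
    refine ConcreteCategory.hom_ext _ _ fun (x : N.obj m) => ?_
    have hσ : sh s (m := m'.unop.len) (rs N (m := m.unop.len) β.unop.toOrderHom x) =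
      (sh s (m := m.unop.len) x).comp β.unop.toOrderHom :=
      sh_map s (m := m.unop.len) (m' := m'.unop.len) β.unop.toOrderHom x
    refine ES.ext' (a := toES f (m := m'.unop.len) (rs N (m := m.unop.len) β.unop.toOrderHom x))
      (b := (toES f (m := m.unop.len) x).res β.unop.toOrderHom) hσ ?_
    intro θ l κ α v h1 h2
    refine congrArg ((f.app (op θ)).app l) (Prod.ext ?_ rfl)
    exact mkPh_congr (rs_rs N (m := m.unop.len) (m' := m'.unop.len)
      β.unop.toOrderHom α x) v (h1.trans (sh_map s α _).symm)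
      (h2.trans (sh_map s (m := m.unop.len) (β.unop.toOrderHom.comp α) x).symm)

theorem toE_app {N : SSet.{0}} {s : N ⟶ SSet.stdSimplex.obj (SimplexCategory.mk r)}
    (f : tn (Ph B s) K ⟶ X) {m : ℕ} (x : N.obj (op (SimplexCategory.mk m))) :
    (toE f).app _ x = toES f x := rfl

theorem toE_pr {N : SSet.{0}} {s : N ⟶ SSet.stdSimplex.obj (SimplexCategory.mk r)}
    (f : tn (Ph B s) K ⟶ X) : toE f ≫ EEpr B X K = s := by
  ext m x
  rfl

/-- The shape of the value of a map over `Δ[r]`. -/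
theorem over_σ {N : SSet.{0}} {s : N ⟶ SSet.stdSimplex.obj (SimplexCategory.mk r)}
    {h : N ⟶ EE B X K} (hs : h ≫ EEpr B X K = s) {m : ℕ}
    (x : N.obj (op (SimplexCategory.mk m))) : (h.app _ x : ES B X K m).σ = sh s x := by
  subst hs
  rfl

/-- The inverse construction. -/
def fromE {N : SSet.{0}} {s : N ⟶ SSet.stdSimplex.obj (SimplexCategory.mk r)}
    (h : N ⟶ EE B X K) (hs : h ≫ EEpr B X K = s) : tn (Ph B s) K ⟶ X where
  app θ :=
    { app := fun l => ↾ fun (z : PhS B s θ.unop l × K.obj l) =>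
        (h.app _ z.1.x : ES B X K θ.unop.len).φ θ.unop l z.2 OrderHom.id (toVS z.1)
          (over_σ hs z.1.x).symm
      naturality := fun l l' β => by
        refine ConcreteCategory.hom_ext _ _ fun (z : PhS B s θ.unop l × K.obj l) => ?_
        exact (h.app _ z.1.x : ES B X K θ.unop.len).natk θ.unop β z.2 OrderHom.id (toVS z.1)
          (over_σ hs z.1.x).symm }
  naturality θ θ' g := by
    refine NatTrans.ext (funext fun l => ?_)
    refine ConcreteCategory.hom_ext _ _ fun (z : PhS B s θ.unop l × K.obj l) => ?_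
    have e1 : (h.app _ (rs N (Wr.Hom.f g.unop) z.1.x) : ES B X K θ'.unop.len) =
        (h.app _ z.1.x : ES B X K θ.unop.len).res (Wr.Hom.f g.unop) :=
      sset_nat h _ z.1.x
    have e2 := (over_σ hs z.1.x).symm
    have e3 : ((toVS z.1).mapθ g.unop).f =
        (h.app _ z.1.x : ES B X K θ.unop.len).σ.comp
          (OrderHom.comp OrderHom.id (Wr.Hom.f g.unop)) :=
      congrArg (fun t => OrderHom.comp t (Wr.Hom.f g.unop)) e2
    refine Eq.trans ?_ ((h.app _ z.1.x : ES B X K θ.unop.len).natθ g.unop l z.2 OrderHom.id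
      (toVS z.1) e2 e3)
    exact ES.φ_congr (α := OrderHom.id) e1 (toVS_mapθ g.unop z.1)
      (over_σ hs (z.1.mapθ g.unop).x).symm e3

theorem fromE_apply {N : SSet.{0}} {s : N ⟶ SSet.stdSimplex.obj (SimplexCategory.mk r)}
    (h : N ⟶ EE B X K) (hs : h ≫ EEpr B X K = s) (θ : Wr C) (l : SimplexCategoryᵒᵖ)
    (u : PhS B s θ l) (κ : K.obj l) :
    ((fromE h hs).app (op θ)).app l (u, κ) = (h.app _ u.x : ES B X K θ.len).φ θ l κ
      OrderHom.id (toVS u) (over_σ hs u.x).symm := rfl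

theorem rs_id (N : SSet.{0}) {m : ℕ} (x : N.obj (op (SimplexCategory.mk m))) :
    rs N OrderHom.id x = x := sset_id N x

theorem mkPh_toVS {N : SSet.{0}} {s : N ⟶ SSet.stdSimplex.obj (SimplexCategory.mk r)}
    {θ : Wr C} {l : SimplexCategoryᵒᵖ} (u : PhS B s θ l) : mkPh u.x (toVS u) rfl = u := rfl

theorem toVS_mkPh {N : SSet.{0}} {s : N ⟶ SSet.stdSimplex.obj (SimplexCategory.mk r)}
    {θ : Wr C} {l : SimplexCategoryᵒᵖ} (x : N.obj (op (SimplexCategory.mk θ.len)))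
    (v : VS B θ l) (h : v.f = sh s x) : toVS (mkPh x v h) = v := by
  obtain ⟨f, g⟩ := v
  obtain rfl : f = sh s x := h
  rfl

theorem fromE_toE {N : SSet.{0}} {s : N ⟶ SSet.stdSimplex.obj (SimplexCategory.mk r)}
    (f : tn (Ph B s) K ⟶ X) : fromE (toE f) (toE_pr f) = f := by
  ext θ l z
  obtain ⟨u, κ⟩ := z
  refine congrArg ((f.app θ).app l) (Prod.ext ?_ rfl)
  exact mkPh_congr (s := s) (rs_id N (PhS.x u)) (toVS u)
    (show (toVS u).f = sh s (rs N OrderHom.id (PhS.x u)) by rw [rs_id]; rfl) rfl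

theorem toE_fromE {N : SSet.{0}} {s : N ⟶ SSet.stdSimplex.obj (SimplexCategory.mk r)}
    (h : N ⟶ EE B X K) (hs : h ≫ EEpr B X K = s) : toE (fromE h hs) = h := by
  refine NatTrans.ext (funext fun m => ?_)
  refine ConcreteCategory.hom_ext _ _ fun (x : N.obj m) => ?_
  refine ES.ext' (a := toES (fromE h hs) (m := m.unop.len) x)
    (b := (h.app (op (SimplexCategory.mk m.unop.len)) x : ES B X K m.unop.len))
    (over_σ hs (m := m.unop.len) x).symm ?_
  intro θ l κ α v h1 h2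
  have e1 : (h.app _ (rs N (m := m.unop.len) α x) : ES B X K θ.len) =
      (h.app (op (SimplexCategory.mk m.unop.len)) x : ES B X K m.unop.len).res α :=
    sset_nat h _ x
  have e2 : v.f = sh s (rs N (m := m.unop.len) α x) :=
    h1.trans (sh_map s (m := m.unop.len) α x).symm
  exact ES.φ_congr (α := OrderHom.id) e1 (toVS_mkPh (s := s) (rs N (m := m.unop.len) α x) v e2)
    (over_σ hs _).symm h2

theorem toE_injective {N : SSet.{0}} {s : N ⟶ SSet.stdSimplex.obj (SimplexCategory.mk r)}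
    {f f' : tn (Ph B s) K ⟶ X} (h : toE f = toE f') : f = f' := by
  rw [← fromE_toE f, ← fromE_toE f']
  congr 1

theorem toE_pre {N N' : SSet.{0}} (i : N ⟶ N')
    {s : N' ⟶ SSet.stdSimplex.obj (SimplexCategory.mk r)} (f : tn (Ph B s) K ⟶ X) :
    toE (tnMap (Ph.map B i s) (𝟙 K) ≫ f) = i ≫ toE f := by
  refine NatTrans.ext (funext fun m => ?_)
  refine ConcreteCategory.hom_ext _ _ fun (x : N.obj m) => ?_
  refine ES.ext' (a := toES (tnMap (Ph.map B i s) (𝟙 K) ≫ f) (m := m.unop.len) x)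
    (b := toES f (m := m.unop.len) (i.app _ x)) rfl ?_
  intro θ l κ α v h1 h2
  refine congrArg ((f.app (op θ)).app l) (Prod.ext ?_ rfl)
  exact mkPh_congr (s := s) (x := i.app _ (rs N (m := m.unop.len) α x))
    (sset_nat i _ x) v (h1.trans (sh_map (i ≫ s) (m := m.unop.len) α x).symm)
    (h2.trans (sh_map s (m := m.unop.len) α (i.app _ x)).symm)

theorem toE_res {N K' : SSet.{0}} (j : K ⟶ K')
    {s : N ⟶ SSet.stdSimplex.obj (SimplexCategory.mk r)} (f : tn (Ph B s) K' ⟶ X) :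
    toE (tnMap (𝟙 (Ph B s)) j ≫ f) = toE f ≫ EEres B X j := rfl

end ES

section Lift

variable {r : ℕ} {B : Fin r → SP C} {X : SP (Wr C)} {K L : SSet.{0}} {N N' : SSet.{0}}

/-- The extension property for `Q ⊗ K ∪ P ⊗ L ⟶ Q ⊗ L`. -/
def ExtP {A : Type} [SmallCategory A] (X : SP A) {P Q : SP A} (p : P ⟶ Q) (j : K ⟶ L) : Prop :=
  ∀ (f : tn Q K ⟶ X) (g : tn P L ⟶ X), tnMap p (𝟙 K) ≫ f = tnMap (𝟙 P) j ≫ g →
    ∃ F : tn Q L ⟶ X, tnMap (𝟙 Q) j ≫ F = f ∧ tnMap p (𝟙 L) ≫ F = g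

theorem extP_iff {A : Type} [SmallCategory A] (X : SP A) {P Q : SP A} (p : P ⟶ Q)
    (j : K ⟶ L) : ExtP X p j ↔ HasLiftingProperty j (Mp.pre p X) := by
  constructor
  · intro h
    refine ⟨fun {f g} sq => ?_⟩
    obtain ⟨F, h1, h2⟩ := h (Mp.adj f) (Mp.adj g) (congrArg Mp.adj sq.w)
    refine ⟨⟨{ l := Mp.adj.symm F, fac_left := ?_, fac_right := ?_ }⟩⟩
    · apply Mp.adj.injective
      exact (Mp.adj_comp j (Mp.adj.symm F)).trans
        ((congrArg (tnMap (𝟙 Q) j ≫ ·) (Mp.adj.apply_symm_apply F)).trans h1)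
    · apply Mp.adj.injective
      exact (Mp.adj_pre p (Mp.adj.symm F)).trans
        ((congrArg (tnMap p (𝟙 L) ≫ ·) (Mp.adj.apply_symm_apply F)).trans h2)
  · intro h f g w
    have sq : CommSq (Mp.adj.symm f) j (Mp.pre p X) (Mp.adj.symm g) := ⟨by
      apply Mp.adj.injective
      refine Eq.trans (Mp.adj_pre p (Mp.adj.symm f)) ?_
      refine Eq.trans ?_ (Mp.adj_comp j (Mp.adj.symm g)).symm
      rw [Mp.adj.apply_symm_apply, Mp.adj.apply_symm_apply]
      exact w⟩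
    refine ⟨Mp.adj sq.lift, ?_, ?_⟩
    · have := congrArg Mp.adj sq.fac_left
      rw [Mp.adj.apply_symm_apply] at this
      exact this
    · have := congrArg Mp.adj sq.fac_right
      rw [Mp.adj.apply_symm_apply] at this
      exact this

theorem extP_of_llp (j : K ⟶ L) (i : N ⟶ N')
    (h : HasLiftingProperty i (EEres B X j))
    (s : N' ⟶ SSet.stdSimplex.obj (SimplexCategory.mk r)) : ExtP X (Ph.map B i s) j := by
  intro f g w
  have sq : CommSq (toE g) i (EEres B X j) (toE f) := ⟨by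
    rw [← toE_res, ← w, toE_pre]⟩
  have hs : sq.lift ≫ EEpr B X L = s := by
    rw [← EEres_pr B X j, ← Category.assoc, sq.fac_right, toE_pr]
  refine ⟨fromE sq.lift hs, ?_, ?_⟩
  · apply toE_injective
    rw [toE_res, toE_fromE, sq.fac_right]
  · apply toE_injective
    rw [toE_pre, toE_fromE, sq.fac_left]

theorem llp_of_extP (j : K ⟶ L) (i : N ⟶ N')
    (h : ∀ s : N' ⟶ SSet.stdSimplex.obj (SimplexCategory.mk r), ExtP X (Ph.map B i s) j) :
    HasLiftingProperty i (EEres B X j) := by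
  refine ⟨fun {a b} sq => ?_⟩
  have hs : a ≫ EEpr B X L = i ≫ b ≫ EEpr B X K := by
    rw [← EEres_pr B X j, ← Category.assoc, sq.w, Category.assoc]
  obtain ⟨F, h1, h2⟩ := h (b ≫ EEpr B X K) (fromE b rfl) (fromE a hs) (by
    apply toE_injective
    rw [toE_pre, toE_res, toE_fromE, toE_fromE, sq.w])
  refine ⟨⟨{ l := toE F, fac_left := ?_, fac_right := ?_ }⟩⟩
  · rw [← toE_pre, h2, toE_fromE]
  · rw [← toE_res, h1, toE_fromE]

open Simplicial in
/-- The transfer principle, from inner horns to inner anodyne extensions. -/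
theorem trivFib_of_horn
    (hhorn : ∀ (m : ℕ) (k : Fin (m + 3)), 0 < k → k < Fin.last (m + 2) →
      ∀ s : (Δ[m + 2] : SSet.{0}) ⟶ SSet.stdSimplex.obj (SimplexCategory.mk r),
        TrivFib (Mp.pre (Ph.map B Λ[m + 2, k].ι s) X))
    (i : N ⟶ N') (hi : SSet.innerAnodyneExtensions i)
    (s : N' ⟶ SSet.stdSimplex.obj (SimplexCategory.mk r)) :
    TrivFib (Mp.pre (Ph.map B i s) X) := by
  intro n
  rw [← extP_iff]
  refine extP_of_llp _ i (hi _ ?_) s
  rintro _ _ _ ⟨k, h0, h1⟩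
  refine llp_of_extP _ _ fun t => ?_
  rw [extP_iff]
  exact hhorn _ k h0 h1 t n

end Lift

section Horn

/-- Membership in a finite union. -/
theorem mem_sup_iff {A : Type} [SmallCategory A] {P : SP A} {ι : Type} (T : Finset ι)
    (F : ι → Sb P) (a : Aᵒᵖ) (k : SimplexCategoryᵒᵖ) (x : (P.obj a).obj k) :
    x ∈ (T.sup F).mem a k ↔ ∃ i ∈ T, x ∈ (F i).mem a k := by
  classical
  induction T using Finset.induction_on with
  | empty =>
    simp only [Finset.sup_empty, Finset.notMem_empty, false_and, exists_false, iff_false]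
    exact Sb.mem_bot a k x
  | insert i T hi ih =>
    rw [Finset.sup_insert, Sb.mem_sup, ih]
    simp only [Finset.mem_insert, exists_eq_or_imp]

theorem Ph_map_injective {r : ℕ} (B : Fin r → SP C) {N N' : SSet.{0}} (i : N ⟶ N') [Mono i]
    (s : N' ⟶ SSet.stdSimplex.obj (SimplexCategory.mk r)) (θ : (Wr C)ᵒᵖ)
    (l : SimplexCategoryᵒᵖ) : Function.Injective (((Ph.map B i s).app θ).app l) := by
  intro (u : PhS B (i ≫ s) θ.unop l) (v : PhS B (i ≫ s) θ.unop l) h
  have h1 : (⟨i.app _ u.x, fun p j h => u.g p j h⟩ : PhS B s θ.unop l) =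
    ⟨i.app _ v.x, fun p j h => v.g p j h⟩ := h
  have hinj : Function.Injective (i.app (op (SimplexCategory.mk θ.unop.len))) :=
    (mono_iff_injective _).1 inferInstance
  have h2 : u.x = v.x := hinj (congrArg PhS.x h1)
  obtain ⟨x, g⟩ := u
  obtain ⟨x', g'⟩ := v
  obtain rfl : x = x' := h2
  refine PhS.ext' rfl fun p j hp hp' => ?_
  have h3 := congrArg (fun (w : PhS B s θ.unop l) => (toVS w)) h1
  simp only [toVS] at h3
  injection h3 with _ h4
  exact congrFun (congrFun (congrFun h4 p) j) hp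

theorem Ph_map_mono {r : ℕ} (B : Fin r → SP C) {N N' : SSet.{0}} (i : N ⟶ N') [Mono i]
    (s : N' ⟶ SSet.stdSimplex.obj (SimplexCategory.mk r)) (θ : (Wr C)ᵒᵖ) :
    Mono ((Ph.map B i s).app θ) := by
  rw [NatTrans.mono_iff_mono_app]
  intro l
  rw [mono_iff_injective]
  exact Ph_map_injective B i s θ l

open Simplicial in
theorem range_horn {r m : ℕ} (B : Fin r → SP C) (k : Fin (m + 1))
    (s : (Δ[m] : SSet.{0}) ⟶ SSet.stdSimplex.obj (SimplexCategory.mk r))
    (B' : Fin m → SP C) (e : Ph B s ≅ V B')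
    (he : ∀ (θ : (Wr C)ᵒᵖ) (k : SimplexCategoryᵒᵖ) (u : PhS B s θ.unop k),
      ((e.hom.app θ).app k u : VS B' θ.unop k).f = sh (𝟙 _) u.x) :
    Sb.range (Ph.map B Λ[m, k].ι s ≫ e.hom) =
      hornL (vface B') Finset.univ (Finset.univ.erase k) := by
  refine Sb.ext (funext fun θ => funext fun l => Set.ext fun v => ?_)
  rw [hornL, mem_sup_iff]
  constructor
  · rintro ⟨u, rfl⟩
    have hx : (PhS.x u).1 ∈ (Λ[m, k] : (Δ[m] : SSet.{0}).Subcomplex).obj _ := (PhS.x u).2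
    rw [SSet.mem_horn_iff_notMem_range] at hx
    obtain ⟨i, hik, hi⟩ := hx
    refine ⟨i, by simp [hik], fun t => ?_⟩
    have h1 := he θ l ((Ph.map B Λ[m, k].ι s).app θ |>.app l u)
    rw [Finset.mem_erase]
    refine ⟨fun h => hi ⟨t, ?_⟩, Finset.mem_univ _⟩
    rw [← h]
    exact (DFunLike.congr_fun h1 t).symm
  · rintro ⟨i, hi, hv⟩
    have hev : (e.hom.app θ).app l ((e.inv.app θ).app l v) = v :=
      ConcreteCategory.congr_hom (NatTrans.congr_app (NatTrans.congr_app e.inv_hom_id θ) l) v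
    have h1 := he θ l ((e.inv.app θ).app l v)
    have hx : (PhS.x ((e.inv.app θ).app l v : PhS B s θ.unop l)) ∈
        (Λ[m, k] : (Δ[m] : SSet.{0}).Subcomplex).obj _ := by
      rw [SSet.mem_horn_iff_notMem_range]
      refine ⟨i, Finset.ne_of_mem_erase hi, ?_⟩
      rintro ⟨t, ht⟩
      have h2 := hv t
      rw [Finset.mem_erase] at h2
      refine h2.1 ?_
      refine Eq.trans ?_ ht
      refine Eq.trans ?_ (DFunLike.congr_fun h1 t)
      exact congrArg (fun w : VS B' θ.unop l => w.f t) hev.symm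
    refine ⟨(⟨⟨_, hx⟩, fun p j h => ((e.inv.app θ).app l v : PhS B s θ.unop l).g p j h⟩ :
      PhS B (Λ[m, k].ι ≫ s) θ.unop l), ?_⟩
    exact hev

end Horn

open Simplicial in
/-- The theorem, with the facts about spines as hypotheses. -/
theorem Ph_transfer_of {X : SP (Wr C)}
    (hPs : ∀ {r N : ℕ} (B : Fin r → SP C)
      (s : (SSet.stdSimplex.obj (SimplexCategory.mk N) : SSet.{0}) ⟶
        SSet.stdSimplex.obj (SimplexCategory.mk r)),
      ∃ (B' : Fin N → SP C) (e : Ph B s ≅ V B'), ∀ (θ : (Wr C)ᵒᵖ) (k : SimplexCategoryᵒᵖ)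
        (u : PhS B s θ.unop k), ((e.hom.app θ).app k u : VS B' θ.unop k).f = sh (𝟙 _) u.x)
    (hvh : ∀ {m : ℕ} (B : Fin m → SP C) (i : Fin (m + 1)), 0 < i → i < Fin.last m →
      LocT X (hornL (vface B) Finset.univ (Finset.univ.erase i)) ⊤)
    (hrange : ∀ {P Q : SP (Wr C)} (f : P ⟶ Q), (∀ a, Mono (f.app a)) →
      (Loc X f ↔ LocT X (Sb.range f) ⊤))
    (hright : ∀ {P Q R : SP (Wr C)} {f : P ⟶ Q} {g : Q ⟶ R}, Loc X g → Loc X (f ≫ g) →
      Loc X f)
    (hiso : ∀ {P Q : SP (Wr C)} (f : P ⟶ Q) [IsIso f], Loc X f)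
    (htf : ∀ {P Q : SP (Wr C)} (i : P ⟶ Q), (∀ a, Mono (i.app a)) → Loc X i →
      TrivFib (Mp.pre i X))
    {r : ℕ} (B : Fin r → SP C) {N N' : SSet.{0}} (i : N ⟶ N')
    (hi : SSet.innerAnodyneExtensions i)
    (s : N' ⟶ SSet.stdSimplex.obj (SimplexCategory.mk r)) :
    TrivFib (Mp.pre (Ph.map B i s) X) := by
  refine trivFib_of_horn (fun m k h0 h1 t => ?_) i hi s
  obtain ⟨B', e, he⟩ := hPs B t
  have hm := Ph_map_mono B (Λ[m + 2, k].ι : (Λ[m + 2, k] : SSet.{0}) ⟶ _) t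
  refine htf _ hm ?_
  refine hright (g := e.hom) (hiso _) ?_
  rw [hrange _ (fun a => ?_), range_horn B k t B' e he]
  · exact hvh B' k h0 h1
  · have := hm a
    change Mono ((Ph.map B Λ[m + 2, k].ι t).app a ≫ e.hom.app a)
    infer_instance

end

end Pool.Agent.Helper43.FL2
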