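import Pool.Agent.Helper43.FL2.PairC

/-!
# `bin_inner` (module FL2-G10)
-/

open CategoryTheory MonoidalCategory Opposite Simplicial

set_option autoImplicit false

namespace Pool.Agent.Helper43.FL2

namespace Bin

variable {r d : ℕ}

/-- Values. -/
def fa (x : (Δ[r + 1] : SSet.{0}) _⦋d⦌) (n : ℕ) : ℕ := (x (cl d n)).val

theorem fa_le (x : (Δ[r + 1] : SSet.{0}) _⦋d⦌) (n : ℕ) : fa x n ≤ r + 1 := by
  have := (x (cl d n)).isLt
  simp only [fa]
  omega

theorem fa_mono (x : (Δ[r + 1] : SSet.{0}) _⦋d⦌) {n m : ℕ} (h : n ≤ m) :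
    fa x n ≤ fa x m :=
  SSet.stdSimplex.monotone_apply x (cl_mono h)

theorem fa_δ (x : (Δ[r + 1] : SSet.{0}) _⦋d + 1⦌) (i : Fin (d + 2)) {n : ℕ}
    (h : n ≤ d) : fa ((Δ[r + 1] : SSet.{0}).δ i x) n =
      fa x (if n < i.val then n else n + 1) := by
  rw [fa, fa, ← succAbove_cl i h]
  rfl

theorem f_ext {x y : (Δ[r + 1] : SSet.{0}) _⦋d⦌} (h : ∀ n ≤ d, fa x n = fa y n) : x = y := by
  refine SSet.stdSimplex.ext _ _ fun i => ?_
  have := h i.val (by omega)
  simp only [fa, cl_eq] at this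
  exact Fin.ext this

theorem f_mk (d : ℕ) (a : ℕ → ℕ) (ha : ∀ n ≤ d, a n ≤ r + 1)
    (hm : ∀ n < d, a n ≤ a (n + 1)) :
    ∃ x : (Δ[r + 1] : SSet.{0}) _⦋d⦌, ∀ n ≤ d, fa x n = a n := by
  have hm' : ∀ n m, n ≤ m → m ≤ d → a n ≤ a m := by
    intro n m hnm
    induction m, hnm using Nat.le_induction with
    | base => intro _; exact le_rfl
    | succ m _ ih =>
      intro h
      exact (ih (by omega)).trans (hm m (by omega))
  refine ⟨SSet.stdSimplex.objMk (m := op ⦋d⦌) ⟨fun i => ⟨a i.val, ?_⟩, ?_⟩, ?_⟩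
  · have := ha i.val (Nat.le_of_lt_succ i.isLt)
    change a i.val < r + 1 + 1
    omega
  · intro i j hij
    exact hm' _ _ hij (Nat.le_of_lt_succ j.isLt)
  · intro n hn
    change a (cl d n).val = a n
    rw [cl_val hn]

theorem f_nd (x : (Δ[r + 1] : SSet.{0}) _⦋d⦌) :
    x ∈ (Δ[r + 1] : SSet.{0}).nonDegenerate d ↔ ∀ n < d, fa x n < fa x (n + 1) := by
  rw [SSet.stdSimplex.mem_nonDegenerate_iff_strictMono]
  constructor
  · intro h n hn
    refine h ?_
    rw [Fin.lt_def, cl_val (by omega), cl_val (by omega)]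
    omega
  · intro h
    rw [Fin.strictMono_iff_lt_succ]
    intro i
    have := h i.val i.isLt
    have e1 : cl d i.val = i.castSucc := by
      rw [← Fin.val_castSucc, cl_eq]
    have e2 : cl d (i.val + 1) = i.succ := by
      rw [← Fin.val_succ, cl_eq]
    rw [fa, fa, e1, e2] at this
    exact this

/-- The subcomplex. -/
def A (r : ℕ) : (Δ[r + 1] : SSet.{0}).Subcomplex :=
  SSet.stdSimplex.face.{0} (n := r + 1) (Finset.univ.erase (Fin.last (r + 1))) ⊔
    SSet.stdSimplex.face {(Fin.last r).castSucc, Fin.last (r + 1)}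

theorem f_out (x : (Δ[r + 1] : SSet.{0}) _⦋d⦌) :
    x ∉ (A r).obj _ ↔ fa x d = r + 1 ∧ fa x 0 < r := by
  have h0 : x ∈ (A r).obj (op ⦋d⦌) ↔
      x ∈ (SSet.stdSimplex.face.{0} (n := r + 1) (Finset.univ.erase (Fin.last (r + 1)))).obj
        (op ⦋d⦌) ∨ x ∈ (SSet.stdSimplex.face.{0} (n := r + 1)
          {(Fin.last r).castSucc, Fin.last (r + 1)}).obj (op ⦋d⦌) := Iff.rfl
  rw [h0, SSet.stdSimplex.mem_face_iff, SSet.stdSimplex.mem_face_iff, not_or]
  push Not
  have hv : ∀ i : Fin (d + 1), (x i).val = fa x i.val := by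
    intro i
    rw [fa, cl_eq]
  refine and_congr ?_ ?_
  · constructor
    · rintro ⟨i, hi⟩
      simp only [Finset.mem_erase, Finset.mem_univ, and_true, not_not] at hi
      have h1 := congrArg Fin.val hi
      rw [hv] at h1
      have := fa_mono x (Nat.le_of_lt_succ i.isLt)
      have := fa_le x d
      simp only [Fin.val_last] at h1
      omega
    · intro h
      refine ⟨cl d d, ?_⟩
      simp only [Finset.mem_erase, Finset.mem_univ, and_true, not_not]
      exact Fin.ext h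
  · constructor
    · rintro ⟨i, hi⟩
      simp only [Finset.mem_insert, Finset.mem_singleton, not_or, Fin.ext_iff, hv,
        Fin.val_castSucc, Fin.val_last] at hi
      have := fa_mono x (Nat.zero_le i.val)
      have := fa_le x i.val
      omega
    · intro h
      refine ⟨cl d 0, ?_⟩
      simp only [Finset.mem_insert, Finset.mem_singleton, not_or, Fin.ext_iff,
        Fin.val_castSucc, Fin.val_last]
      change ¬ fa x 0 = r ∧ ¬ fa x 0 = r + 1
      omega

structure Ok (x : (Δ[r + 1] : SSet.{0}) _⦋d⦌) : Prop where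
  nd : ∀ n < d, fa x n < fa x (n + 1)
  o : fa x d = r + 1
  z : fa x 0 < r

theorem ok_iff (x : (Δ[r + 1] : SSet.{0}) _⦋d⦌) :
    Ok x ↔ x ∈ (Δ[r + 1] : SSet.{0}).nonDegenerate d ∧ x ∉ (A r).obj _ := by
  rw [f_nd, f_out]
  exact ⟨fun h => ⟨h.nd, h.o, h.z⟩, fun h => ⟨h.1, h.2.1, h.2.2⟩⟩

theorem mono_lt {x : (Δ[r + 1] : SSet.{0}) _⦋d⦌} (h : Ok x) {n m : ℕ} (hnm : n < m)
    (hm : m ≤ d) : fa x n < fa x m :=
  (h.nd n (by omega)).trans_le (fa_mono x hnm)

/-- The position of `r` is the last but one. -/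
theorem pos {x : (Δ[r + 1] : SSet.{0}) _⦋d + 1⦌} (h : Ok x) {i : ℕ} (hi : i ≤ d + 1)
    (hr : fa x i = r) : i = d ∧ 1 ≤ d := by
  have h1 : i ≠ 0 := by
    rintro rfl
    have := h.z
    omega
  have h2 : i ≠ d + 1 := by
    rintro rfl
    have := h.o
    omega
  have h3 : ¬ i < d := by
    intro h3
    have h4 := mono_lt h h3 (by omega)
    have h5 := h.nd d (by omega)
    have := h.o
    omega
  omega

theorem Ok.δ {x : (Δ[r + 1] : SSet.{0}) _⦋d + 1⦌} (h : Ok x) {i : Fin (d + 2)}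
    (hr : fa x i.val = r) : Ok ((Δ[r + 1] : SSet.{0}).δ i x) := by
  obtain ⟨h1, h2⟩ := pos h (Nat.le_of_lt_succ i.isLt) hr
  refine ⟨?_, ?_, ?_⟩
  · intro n hn
    rw [fa_δ x i (by omega), fa_δ x i (by omega)]
    exact mono_lt h (by split_ifs <;> omega) (by split_ifs <;> omega)
  · rw [fa_δ x i (by omega), if_neg (by omega)]
    exact h.o
  · rw [fa_δ x i (by omega), if_pos (by omega)]
    exact h.z

theorem δ_ne {x : (Δ[r + 1] : SSet.{0}) _⦋d + 1⦌} (h : Ok x) {i : Fin (d + 2)}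
    (hr : fa x i.val = r) {n : ℕ} (hn : n ≤ d) :
    fa ((Δ[r + 1] : SSet.{0}).δ i x) n ≠ r := by
  obtain ⟨h1, h2⟩ := pos h (Nat.le_of_lt_succ i.isLt) hr
  rw [fa_δ x i hn]
  intro h3
  have h4 := pos h (i := if n < i.val then n else n + 1) (by split_ifs <;> omega) h3
  split_ifs at h4 <;> omega

theorem has_r {x : (Δ[r + 1] : SSet.{0}) _⦋d + 1⦌} {i j : Fin (d + 2)}
    (hr : fa x i.val = r) (hij : j ≠ i) :
    ∃ n ≤ d, fa ((Δ[r + 1] : SSet.{0}).δ j x) n = r := by
  have hji' : j.val ≠ i.val := fun h => hij (Fin.ext h)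
  have hj := j.isLt
  have hi := i.isLt
  rcases Nat.lt_or_ge i.val j.val with h | h
  · refine ⟨i.val, by omega, ?_⟩
    rw [fa_δ x j (by omega), if_pos h]
    exact hr
  · refine ⟨i.val - 1, by omega, ?_⟩
    rw [fa_δ x j (by omega), if_neg (by omega), show i.val - 1 + 1 = i.val by omega]
    exact hr

theorem ex_aux {x : (Δ[r + 1] : SSet.{0}) _⦋d⦌} (hx : Ok x) (h : ∀ n ≤ d, fa x n ≠ r) :
    ∃ (y : (Δ[r + 1] : SSet.{0}) _⦋d + 1⦌) (i : Fin (d + 2)), Ok y ∧ fa y i.val = r ∧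
      (Δ[r + 1] : SSet.{0}).δ i y = x := by
  have hd : 1 ≤ d := by
    by_contra hd
    have : d = 0 := by omega
    subst this
    have := hx.z
    have := hx.o
    omega
  have a0 : ∀ n < d, fa x n < r := by
    intro n hn
    have h1 := mono_lt hx hn le_rfl
    have h2 := hx.o
    have h3 := h n (by omega)
    omega
  have hr : 1 ≤ r := by
    have := hx.z
    omega
  have mono : ∀ n < d + 1, ins d r (fa x) n < ins d r (fa x) (n + 1) := by
    intro n hn
    unfold ins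
    rcases (show n + 1 < d ∨ n + 1 = d ∨ n = d by omega) with h1 | h1 | h1
    · rw [if_pos (by omega), if_pos (by omega)]
      exact hx.nd n (by omega)
    · rw [if_pos (by omega), if_neg (by omega), if_pos (by omega)]
      exact a0 n (by omega)
    · subst h1
      rw [if_neg (by omega), if_pos rfl, if_neg (by omega), if_neg (by omega),
        show n + 1 - 1 = n by omega, hx.o]
      omega
  obtain ⟨y, hy⟩ := f_mk (r := r) (d + 1) (ins d r (fa x))
    (by
      intro n _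
      unfold ins
      split_ifs
      · exact fa_le x n
      · omega
      · exact fa_le x _)
    (fun n hn => (mono n hn).le)
  have hi : (⟨d, by omega⟩ : Fin (d + 2)).val = d := rfl
  refine ⟨y, ⟨d, by omega⟩, ⟨?_, ?_, ?_⟩, ?_, f_ext ?_⟩
  · intro n hn
    rw [hy n (by omega), hy (n + 1) (by omega)]
    exact mono n hn
  · rw [hy _ le_rfl, ins, if_neg (by omega), if_neg (by omega), show d + 1 - 1 = d by omega]
    exact hx.o
  · rw [hy _ (by omega), ins, if_pos (by omega)]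
    exact hx.z
  · rw [hi, hy _ (by omega), ins, if_neg (by omega), if_pos rfl]
  · intro n hn
    rw [fa_δ y _ hn, hi, hy _ (by split_ifs <;> omega), ins_skip]

theorem inj_aux {x y : (Δ[r + 1] : SSet.{0}) _⦋d + 1⦌} {i j : Fin (d + 2)} (hx : Ok x)
    (hy : Ok y) (hi : fa x i.val = r) (hj : fa y j.val = r)
    (h : (Δ[r + 1] : SSet.{0}).δ i x = (Δ[r + 1] : SSet.{0}).δ j y) : x = y := by
  obtain ⟨h1, _⟩ := pos hx (Nat.le_of_lt_succ i.isLt) hi
  obtain ⟨h2, _⟩ := pos hy (Nat.le_of_lt_succ j.isLt) hj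
  have hij : i = j := Fin.ext (by omega)
  subst hij
  refine f_ext fun n hn => ?_
  by_cases hni : n = i.val
  · rw [hni, hi, hj]
  · obtain ⟨m, hm, rfl⟩ : ∃ m ≤ d, (if m < i.val then m else m + 1) = n := by
      rcases Nat.lt_or_ge n i.val with h | h
      · exact ⟨n, by omega, by rw [if_pos h]⟩
      · exact ⟨n - 1, by omega, by rw [if_neg (by omega)]; omega⟩
    rw [← fa_δ x i hm, ← fa_δ y i hm, h]

/-- The pairing. -/
def pd (r : ℕ) : PData (A r) where
  I x i := Ok x ∧ fa x i.val = r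
  II {d} x := Ok x ∧ ∀ n ≤ d, fa x n ≠ r
  rk _ := 0
  I_nd h := ((ok_iff _).1 h.1).1
  I_not h := ((ok_iff _).1 h.1).2
  II_nd h := ((ok_iff _).1 h.1).1
  II_not h := ((ok_iff _).1 h.1).2
  I_II := by
    rintro d x i ⟨hx, h⟩
    exact ⟨hx.δ h, fun n hn => δ_ne hx h hn⟩
  not_II {d x i} h h' := h'.2 i.val (Nat.le_of_lt_succ i.isLt) h.2
  cover0 x h h' := by
    have := (ok_iff x).2 ⟨h, h'⟩
    have h1 := this.z
    have h2 := this.o
    omega
  cover {d} x h h' := by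
    have hx := (ok_iff x).2 ⟨h, h'⟩
    by_cases hr : ∀ n ≤ d + 1, fa x n ≠ r
    · exact Or.inl ⟨hx, hr⟩
    · push Not at hr
      obtain ⟨n, hn, hr⟩ := hr
      exact Or.inr ⟨⟨n, by omega⟩, hx, hr⟩
  ex := by
    rintro d x ⟨hx, h⟩
    obtain ⟨y, i, h1, h2, h3⟩ := ex_aux hx h
    exact ⟨y, i, ⟨h1, h2⟩, h3⟩
  inj h h' e := inj_aux h.1 h'.1 h.2 h'.2 e
  uniq {d x i j} h h' := by
    have h1 := (pos h.1 (Nat.le_of_lt_succ i.isLt) h.2).1
    have h2 := (pos h'.1 (Nat.le_of_lt_succ j.isLt) h'.2).1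
    exact Fin.ext (by omega)
  lt h hne h' := by
    obtain ⟨n, hn, h1⟩ := has_r h.2 hne
    exact absurd h1 (h'.2 n hn)
  inner0 := by
    rintro d x i ⟨hx, h⟩ rfl
    have := (pos hx (Nat.zero_le _) h)
    omega
  innerL := by
    rintro d x i ⟨hx, h⟩ rfl
    have := (pos hx le_rfl h).1
    omega

end Bin

theorem bin_inner (r : ℕ) :
    SSet.innerAnodyneExtensions
      (SSet.stdSimplex.face.{0} (n := r + 1) (Finset.univ.erase (Fin.last (r + 1))) ⊔
        SSet.stdSimplex.face {(Fin.last r).castSucc, Fin.last (r + 1)}).ι :=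
  (Bin.pd r).innerAnodyne

end Pool.Agent.Helper43.FL2
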