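import Pool.Agent.Helper58.FL2.Flag2

/-!
# Interval inclusions in wreath products (for FL2-C1a)
-/

open CategoryTheory MonoidalCategory Opposite

set_option autoImplicit false

namespace Pool.Agent.Helper43.FL2

open FL

variable {C : Type} [SmallCategory C]

/-- Inclusions of intervals. -/
structure Inert {X Y : Wr C} (ι : X ⟶ Y) (a : ℕ) : Prop where
  f : ∀ t, (Wr.Hom.f ι t).val = a + t.val
  g : ∀ i j h, IsIso (Wr.Hom.g ι i j h)

namespace Inert

variable {X Y : Wr C} {ι : X ⟶ Y} {a : ℕ}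

theorem jump (h : Inert ι a) {i : Fin X.len} {j : Fin Y.len} :
    Jump (Wr.Hom.f ι) i j ↔ j.val = a + i.val := by
  unfold Jump
  rw [Fin.le_def, Fin.le_def, h.f, h.f]
  simp only [Fin.val_castSucc, Fin.val_succ]
  omega

theorem lt (h : Inert ι a) (i : Fin X.len) : a + i.val < Y.len := by
  have h1 := h.f i.succ
  have h2 := (Wr.Hom.f ι i.succ).isLt
  rw [h1, Fin.val_succ] at h2
  omega

theorem len_le (h : Inert ι a) : a + X.len ≤ Y.len := by
  have h1 := h.f (Fin.last _)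
  have h2 := (Wr.Hom.f ι (Fin.last _)).isLt
  rw [h1, Fin.val_last] at h2
  omega

/-- The shifted index. -/
def sft (h : Inert ι a) (i : Fin X.len) : Fin Y.len := ⟨a + i.val, h.lt i⟩

theorem jump_sft (h : Inert ι a) (i : Fin X.len) : Jump (Wr.Hom.f ι) i (h.sft i) :=
  h.jump.2 rfl

/-- Postcomposition is injective. -/
theorem comp_injective (h : Inert ι a) {Z : Wr C} {φ ψ : Z ⟶ X} (e : φ ≫ ι = ψ ≫ ι) :
    φ = ψ := by
  have hf : Wr.Hom.f φ = Wr.Hom.f ψ := by
    ext t
    have h1 := congrArg (fun w : Z ⟶ Y => (Wr.Hom.f w t).val) e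
    simp only [Wr.comp_f, OrderHom.comp_coe, Function.comp_apply, h.f] at h1
    omega
  refine Wr.hom_ext' hf fun i j h1 h2 => ?_
  have e1 := Wr.comp_g φ ι h1 (h.jump_sft j)
  have e2 := Wr.comp_g ψ ι h2 (h.jump_sft j)
  have e3 : Wr.Hom.g (φ ≫ ι) i (h.sft j) (h1.comp (h.jump_sft j)) =
      Wr.Hom.g (ψ ≫ ι) i (h.sft j) (h2.comp (h.jump_sft j)) := by
    congr 1
  have := h.g j (h.sft j) (h.jump_sft j)
  rw [← cancel_mono (Wr.Hom.g ι j (h.sft j) (h.jump_sft j)), ← e1, ← e2, e3]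

/-- Morphisms with values in the interval factor. -/
theorem factor (h : Inert ι a) {Z : Wr C} (ψ : Z ⟶ Y)
    (hψ : ∀ t, a ≤ (Wr.Hom.f ψ t).val ∧ (Wr.Hom.f ψ t).val ≤ a + X.len) :
    ∃ φ : Z ⟶ X, φ ≫ ι = ψ := by
  let f : Fin (Z.len + 1) →o Fin (X.len + 1) :=
    ⟨fun t => ⟨(Wr.Hom.f ψ t).val - a, by have := hψ t; omega⟩, fun s t hst => by
      have := (Wr.Hom.f ψ).monotone hst
      rw [Fin.le_def] at this ⊢
      simp only
      omega⟩
  have hfv : ∀ t, (f t).val = (Wr.Hom.f ψ t).val - a := fun t => rfl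
  have hj : ∀ i j, Jump f i j → Jump (Wr.Hom.f ψ) i (h.sft j) := by
    rintro i j ⟨h1, h2⟩
    rw [Fin.le_def, hfv, Fin.val_castSucc] at h1
    rw [Fin.le_def, hfv, Fin.val_succ] at h2
    have h3 := hψ i.castSucc
    have h4 := hψ i.succ
    refine ⟨?_, ?_⟩
    · rw [Fin.le_def, Fin.val_castSucc]
      simp only [sft]
      omega
    · rw [Fin.le_def, Fin.val_succ]
      simp only [sft]
      omega
  have hiso := h.g
  let φ : Z ⟶ X := ({ f := f
                      g := fun i j hij => Wr.Hom.g ψ i (h.sft j) (hj i j hij) ≫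
                        (haveI := hiso j (h.sft j) (h.jump_sft j)
                         inv (Wr.Hom.g ι j (h.sft j) (h.jump_sft j))) } : Wr.Hom Z X)
  refine ⟨φ, Wr.hom_ext' ?_ ?_⟩
  · ext t
    rw [Wr.comp_f]
    change (Wr.Hom.f ι (f t)).val = _
    rw [h.f, hfv]
    have := hψ t
    omega
  · intro i k h1 h2
    obtain ⟨j, hj1, hj2⟩ := Jump.split (f := Wr.Hom.f φ) (g := Wr.Hom.f ι) h1
    have e1 := Wr.comp_g φ ι hj1 hj2
    refine e1.trans ?_
    obtain rfl : k = h.sft j := Fin.ext (h.jump.1 hj2)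
    have := hiso j (h.sft j) (h.jump_sft j)
    change (Wr.Hom.g ψ i (h.sft j) _ ≫ inv (Wr.Hom.g ι j (h.sft j) _)) ≫
      Wr.Hom.g ι j (h.sft j) _ = _
    rw [Category.assoc, IsIso.inv_hom_id, Category.comp_id]

theorem factor_iff (h : Inert ι a) {Z : Wr C} (ψ : Z ⟶ Y) :
    (∃ φ : Z ⟶ X, φ ≫ ι = ψ) ↔
      ∀ t, a ≤ (Wr.Hom.f ψ t).val ∧ (Wr.Hom.f ψ t).val ≤ a + X.len := by
  refine ⟨?_, h.factor ψ⟩
  rintro ⟨φ, rfl⟩ t
  rw [Wr.comp_f, OrderHom.comp_coe, Function.comp_apply, h.f]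
  have := (Wr.Hom.f φ t).isLt
  omega

end Inert

theorem inert_init {r : ℕ} (c : Fin (r + 1) → C) : Inert (initMap c) 0 where
  f t := by
    change (Fin.castSucc t).val = _
    simp
  g i j h := by
    have e : (init c).obj i = (⟨r + 1, c⟩ : Wr C).obj j := by
      have h1 : i.1 ≤ j.1 := h.1
      have h2 : j.1 + 1 ≤ i.1 + 1 := h.2
      refine congrArg c (Fin.ext ?_)
      change i.1 = j.1
      omega
    change IsIso (eqToHom e)
    infer_instance

theorem inert_last {r : ℕ} (c : Fin (r + 1) → C) : Inert (lastMap' c) r where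
  f t := rfl
  g i j h := by
    have e : (seg (c (Fin.last r))).obj i = (⟨r + 1, c⟩ : Wr C).obj j := by
      have h1 : r + i.1 ≤ j.1 := h.1
      refine congrArg c (Fin.ext ?_)
      have h2 : j.1 < r + 1 := j.2
      change r = j.1
      omega
    change IsIso (eqToHom e)
    infer_instance

theorem inert_vtx (θ : Wr C) (i : Fin (θ.len + 1)) : Inert (vtx θ i) i.val where
  f t := by
    change i.val = _
    have := t.isLt
    change t.val < 0 + 1 at this
    omega
  g i j h := i.elim0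

end Pool.Agent.Helper43.FL2
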