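import Pool.Agent.Helper58.FL2.Comb

/-!
# A criterion for inner anodyne inclusions of subcomplexes

`PData A` is a regular inner pairing given by predicates on simplices.
-/

open CategoryTheory MonoidalCategory Opposite Simplicial

set_option autoImplicit false

namespace Pool.Agent.Helper43.FL2

/-- Data for a regular inner pairing: `I x i` says that `x` is of type I with distinguished
face `i`, `II x` that `x` is of type II. -/
structure PData {X : SSet.{0}} (A : X.Subcomplex) where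
  I : ∀ {d : ℕ}, X _⦋d + 1⦌ → Fin (d + 2) → Prop
  II : ∀ {d : ℕ}, X _⦋d⦌ → Prop
  rk : ∀ {d : ℕ}, X _⦋d⦌ → ℕ
  I_nd : ∀ {d : ℕ} {x : X _⦋d + 1⦌} {i : Fin (d + 2)}, I x i → x ∈ X.nonDegenerate _
  I_not : ∀ {d : ℕ} {x : X _⦋d + 1⦌} {i : Fin (d + 2)}, I x i → x ∉ A.obj _
  II_nd : ∀ {d : ℕ} {x : X _⦋d⦌}, II x → x ∈ X.nonDegenerate _
  II_not : ∀ {d : ℕ} {x : X _⦋d⦌}, II x → x ∉ A.obj _
  I_II : ∀ {d : ℕ} {x : X _⦋d + 1⦌} {i : Fin (d + 2)}, I x i → II (X.δ i x)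
  not_II : ∀ {d : ℕ} {x : X _⦋d + 1⦌} {i : Fin (d + 2)}, I x i → ¬ II x
  cover0 : ∀ (x : X _⦋0⦌), x ∈ X.nonDegenerate _ → x ∉ A.obj _ → II x
  cover : ∀ {d : ℕ} (x : X _⦋d + 1⦌), x ∈ X.nonDegenerate _ → x ∉ A.obj _ →
    II x ∨ ∃ i, I x i
  ex : ∀ {d : ℕ} {x : X _⦋d⦌}, II x → ∃ (y : X _⦋d + 1⦌) (i : Fin (d + 2)), I y i ∧
    X.δ i y = x
  inj : ∀ {d : ℕ} {x y : X _⦋d + 1⦌} {i j : Fin (d + 2)}, I x i → I y j →
    X.δ i x = X.δ j y → x = y
  uniq : ∀ {d : ℕ} {x : X _⦋d + 1⦌} {i j : Fin (d + 2)}, I x i → I x j → i = j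
  lt : ∀ {d : ℕ} {x : X _⦋d + 1⦌} {i j : Fin (d + 2)}, I x i → j ≠ i → II (X.δ j x) →
    rk (X.δ j x) < rk (X.δ i x)
  inner0 : ∀ {d : ℕ} {x : X _⦋d + 1⦌} {i : Fin (d + 2)}, I x i → i ≠ 0
  innerL : ∀ {d : ℕ} {x : X _⦋d + 1⦌} {i : Fin (d + 2)}, I x i → i ≠ Fin.last _

namespace PData

variable {X : SSet.{0}} {A : X.Subcomplex} (P : PData A)

/-- The index type. -/
structure Ix where
  d : ℕ
  x : X _⦋d + 1⦌
  i : Fin (d + 2)
  h : P.I x i

variable {P}

theorem Ix.ext' {s t : P.Ix} (hd : s.d = t.d) (hx : SSet.S.mk s.x = SSet.S.mk t.x) : s = t := by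
  obtain ⟨d, x, i, h⟩ := s
  obtain ⟨d', x', i', h'⟩ := t
  obtain rfl : d = d' := hd
  obtain rfl : x = x' := (SSet.S.ext_iff x x').1 hx
  obtain rfl : i = i' := P.uniq h h'
  rfl

variable (P)

/-- The pairing. -/
def core : A.PairingCore where
  ι := P.Ix
  dim s := s.d
  simplex s := s.x
  index s := s.i
  nonDegenerate₁ s := P.I_nd s.h
  nonDegenerate₂ s := P.II_nd (P.I_II s.h)
  notMem₁ s := P.I_not s.h
  notMem₂ s := P.II_not (P.I_II s.h)
  injective_type₁' {s t} h := Ix.ext' (by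
    have := SSet.S.dim_eq_of_mk_eq h
    omega) h
  injective_type₂' {s t} h := by
    have hd : s.d = t.d := SSet.S.dim_eq_of_mk_eq h
    refine Ix.ext' hd ?_
    obtain ⟨d, x, i, hx⟩ := s
    obtain ⟨d', x', i', hx'⟩ := t
    obtain rfl : d = d' := hd
    have h2 := (SSet.S.ext_iff _ _).1 h
    exact congrArg (fun z => SSet.S.mk z) (P.inj hx hx' h2)
  type₁_ne_type₂' s t h := by
    obtain ⟨d, x, i, hx⟩ := s
    obtain ⟨d', x', i', hx'⟩ := t
    have hd : d + 1 = d' := SSet.S.dim_eq_of_mk_eq h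
    subst hd
    have h2 := (SSet.S.ext_iff _ _).1 h
    refine P.not_II hx ?_
    rw [show x = _ from h2]
    exact P.I_II hx'
  surjective' x := by
    obtain ⟨n, x, hx, hx', rfl⟩ := x.mk_surjective
    have key : P.II x → ∃ s : P.Ix, SSet.S.mk x = SSet.S.mk (X.δ s.i s.x) := by
      intro h
      obtain ⟨y, i, hy, rfl⟩ := P.ex h
      exact ⟨⟨_, y, i, hy⟩, rfl⟩
    cases n with
    | zero =>
      obtain ⟨s, hs⟩ := key (P.cover0 x hx hx')
      exact ⟨s, Or.inr hs⟩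
    | succ n =>
      rcases P.cover x hx hx' with h | ⟨i, hi⟩
      · obtain ⟨s, hs⟩ := key h
        exact ⟨s, Or.inr hs⟩
      · exact ⟨⟨n, x, i, hi⟩, Or.inl rfl⟩

instance : P.core.IsProper where
  isUniquelyCodimOneFace s := by
    obtain ⟨d, x, i, hx⟩ := s
    refine (SSet.S.IsUniquelyCodimOneFace.iff (d := d) (X.δ i x) x).2
      ⟨i, rfl, fun (j : Fin (d + 2)) hj => ?_⟩
    by_contra hne
    have h1 : X.δ j x = X.δ i x := hj
    have := P.lt hx hne (h1 ▸ P.I_II hx)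
    rw [h1] at this
    exact lt_irrefl _ this

instance : P.core.IsInner where
  ne_zero s := P.inner0 s.h
  ne_last s := P.innerL s.h

/-- The rank function. -/
def rankFn : P.core.WeakRankFunction ℕ where
  rank s := P.rk (X.δ s.i s.x)
  lt := by
    rintro ⟨d, x, i, hx⟩ ⟨d', x', i', hx'⟩ ⟨h1, h2⟩ h3
    obtain rfl : d = d' := h3
    obtain ⟨f, hf, hδ⟩ : ∃ (f : ⦋d⦌ ⟶ ⦋d + 1⦌), Mono f ∧ X.map f.op x' = X.δ i x := by
      obtain ⟨f, hf, hδ⟩ := SSet.N.le_iff_exists_mono.1 h2.le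
      exact ⟨f, hf, hδ⟩
    obtain ⟨j, rfl⟩ := SimplexCategory.eq_δ_of_mono f
    have h4 : X.δ j x' = X.δ i x := hδ
    by_cases hj : j = i'
    · subst hj
      have := P.inj hx hx' h4.symm
      subst this
      obtain rfl := P.uniq hx hx'
      exact absurd rfl h1
    · have := P.lt hx' hj (h4 ▸ P.I_II hx)
      rw [h4] at this
      exact this

include P in
theorem innerAnodyne : SSet.innerAnodyneExtensions A.ι := by
  have : P.core.IsRegular := P.rankFn.isRegular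
  exact P.core.pairing.innerAnodyneExtensions

end PData

end Pool.Agent.Helper43.FL2
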