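import Pool.Agent.Helper43.FL2.Pair

/-!
# Two inner anodyne extensions (module FL2-G10)
-/

open CategoryTheory MonoidalCategory Opposite Simplicial

set_option autoImplicit false

namespace Pool.Agent.Helper43.FL2

open FL

theorem predAbove_val {d : ℕ} (i : Fin (d + 1)) (j : Fin (d + 2)) :
    (i.predAbove j).val = if i.val < j.val then j.val - 1 else j.val := by
  simp only [Fin.predAbove, Fin.lt_def, Fin.val_castSucc]
  split_ifs <;> simp

theorem succAbove_val {d : ℕ} (i : Fin (d + 2)) (j : Fin (d + 1)) :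
    (i.succAbove j).val = if j.val < i.val then j.val else j.val + 1 := by
  simp only [Fin.succAbove, Fin.lt_def, Fin.val_castSucc]
  split_ifs <;> simp

/-- Clamping. -/
def cl (d n : ℕ) : Fin (d + 1) := ⟨min n d, by omega⟩

theorem cl_val' (d n : ℕ) : (cl d n).val = min n d := rfl

theorem cl_val {d n : ℕ} (h : n ≤ d) : (cl d n).val = n := by
  simp [cl, h]

theorem cl_eq {d : ℕ} (i : Fin (d + 1)) : cl d i.val = i := by
  ext
  rw [cl_val (by omega)]

theorem cl_mono {d n m : ℕ} (h : n ≤ m) : cl d n ≤ cl d m := by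
  rw [Fin.le_def, cl_val', cl_val']
  omega

theorem succAbove_cl {d : ℕ} (i : Fin (d + 2)) {n : ℕ} (h : n ≤ d) :
    i.succAbove (cl d n) = cl (d + 1) (if n < i.val then n else n + 1) := by
  ext
  rw [cl_val (by split_ifs <;> omega), succAbove_val, cl_val h]

section

variable {S : Type} {d : ℕ}

/-- Word criterion for degenerate simplices of `EN S`. -/
theorem EN_nd (w : (EN S) _⦋d⦌) : w ∈ (EN S).nonDegenerate d ↔
    ∀ n < d, w (cl d n) ≠ w (cl d (n + 1)) := by
  cases d with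
  | zero => simp
  | succ d =>
    rw [SSet.mem_nonDegenerate_iff_notMem_degenerate, SSet.degenerate_eq_iUnion_range_σ]
    simp only [Set.mem_iUnion, Set.mem_range, not_exists]
    constructor
    · intro h n hn heq
      refine h ⟨n, hn⟩ ((EN S).δ (⟨n, by omega⟩ : Fin (d + 2)) w) ?_
      funext j
      have hj : w j = w (cl (d + 1) j.val) := by rw [cl_eq]
      change w ((⟨n, by omega⟩ : Fin (d + 2)).succAbove
        ((⟨n, hn⟩ : Fin (d + 1)).predAbove j)) = w j
      by_cases hjn : j.val = n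
      · have h1 : j = cl (d + 1) n := by rw [← hjn, cl_eq]
        rw [h1, heq]
        congr 1
        ext
        rw [cl_val (by omega), succAbove_val, predAbove_val, cl_val (by omega)]
        simp
      · congr 1
        ext
        rw [succAbove_val, predAbove_val]
        simp only
        split_ifs <;> omega
    · intro h i y hy
      refine h i.val i.isLt ?_
      rw [← hy]
      change y (i.predAbove _) = y (i.predAbove _)
      congr 1
      ext
      rw [predAbove_val, predAbove_val, cl_val (by omega), cl_val (by omega)]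
      split_ifs <;> omega

/-- The vertex map of `Δ[1] ⊗ EN S`. -/
def uw (S : Type) : (Δ[1] : SSet.{0}) ⊗ EN S ⟶ EN (Fin 2 × S) where
  app _ := ↾ fun x i => (SSet.stdSimplex.asOrderHom x.1 i, x.2 i)
  naturality _ _ _ := rfl

instance (S : Type) : Mono (uw S) := by
  rw [NatTrans.mono_iff_mono_app]
  intro m
  rw [mono_iff_injective]
  intro x y h
  have h2 : ∀ i, (SSet.stdSimplex.asOrderHom x.1 i, x.2 i) =
    (SSet.stdSimplex.asOrderHom y.1 i, y.2 i) := fun i => congrFun h i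
  obtain ⟨x1, x2⟩ := x
  obtain ⟨y1, y2⟩ := y
  refine Prod.ext ?_ ?_
  · refine SSet.stdSimplex.ext _ _ fun i => ?_
    exact congrArg Prod.fst (h2 i)
  · funext i
    exact congrArg Prod.snd (h2 i)

/-- First components. -/
def fa (x : ((Δ[1] : SSet.{0}) ⊗ EN S) _⦋d⦌) (n : ℕ) : ℕ := (x.1 (cl d n)).val

/-- Second components. -/
def fb (x : ((Δ[1] : SSet.{0}) ⊗ EN S) _⦋d⦌) (n : ℕ) : S := x.2 (cl d n)

theorem fa_le (x : ((Δ[1] : SSet.{0}) ⊗ EN S) _⦋d⦌) (n : ℕ) : fa x n ≤ 1 := by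
  have := (x.1 (cl d n)).isLt
  simp only [fa]
  omega

theorem fa_mono (x : ((Δ[1] : SSet.{0}) ⊗ EN S) _⦋d⦌) {n m : ℕ} (h : n ≤ m) :
    fa x n ≤ fa x m :=
  SSet.stdSimplex.monotone_apply x.1 (cl_mono h)

theorem fa_δ (x : ((Δ[1] : SSet.{0}) ⊗ EN S) _⦋d + 1⦌) (i : Fin (d + 2)) {n : ℕ}
    (h : n ≤ d) : fa (((Δ[1] : SSet.{0}) ⊗ EN S).δ i x) n =
      fa x (if n < i.val then n else n + 1) := by
  rw [fa, fa, ← succAbove_cl i h]
  rfl

theorem fb_δ (x : ((Δ[1] : SSet.{0}) ⊗ EN S) _⦋d + 1⦌) (i : Fin (d + 2)) {n : ℕ}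
    (h : n ≤ d) : fb (((Δ[1] : SSet.{0}) ⊗ EN S).δ i x) n =
      fb x (if n < i.val then n else n + 1) := by
  rw [fb, fb, ← succAbove_cl i h]
  rfl

theorem f_ext {x y : ((Δ[1] : SSet.{0}) ⊗ EN S) _⦋d⦌} (h : ∀ n ≤ d, fa x n = fa y n)
    (h' : ∀ n ≤ d, fb x n = fb y n) : x = y := by
  obtain ⟨x1, x2⟩ := x
  obtain ⟨y1, y2⟩ := y
  refine Prod.ext ?_ ?_
  · refine SSet.stdSimplex.ext _ _ fun i => ?_
    have := h i.val (by omega)
    simp only [fa, cl_eq] at this
    exact Fin.ext this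
  · funext i
    have := h' i.val (Nat.le_of_lt_succ i.isLt)
    simp only [fb, cl_eq] at this
    exact this

theorem f_mk (d : ℕ) (a : ℕ → ℕ) (b : ℕ → S) (ha : ∀ n ≤ d, a n ≤ 1)
    (hm : ∀ n < d, a n ≤ a (n + 1)) :
    ∃ x : ((Δ[1] : SSet.{0}) ⊗ EN S) _⦋d⦌, (∀ n ≤ d, fa x n = a n) ∧
      ∀ n ≤ d, fb x n = b n := by
  have hm' : ∀ n m, n ≤ m → m ≤ d → a n ≤ a m := by
    intro n m hnm
    induction m, hnm using Nat.le_induction with
    | base => intro _; exact le_rfl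
    | succ m _ ih =>
      intro h
      exact (ih (by omega)).trans (hm m (by omega))
  refine ⟨(SSet.stdSimplex.objMk (m := op ⦋d⦌) ⟨fun i => ⟨a i.val, ?_⟩, ?_⟩,
    fun i => b i.val), ?_, ?_⟩
  · have := ha i.val (Nat.le_of_lt_succ i.isLt)
    change a i.val < 1 + 1
    omega
  · intro i j hij
    exact hm' _ _ hij (Nat.le_of_lt_succ j.isLt)
  · intro n hn
    change a (cl d n).val = a n
    rw [cl_val hn]
  · intro n hn
    change b (cl d n).val = b n
    rw [cl_val hn]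

/-- Nondegenerate words. -/
theorem f_nd (x : ((Δ[1] : SSet.{0}) ⊗ EN S) _⦋d⦌) :
    x ∈ ((Δ[1] : SSet.{0}) ⊗ EN S).nonDegenerate d ↔
      ∀ n < d, fa x n = fa x (n + 1) → fb x n ≠ fb x (n + 1) := by
  rw [← SSet.nonDegenerate_iff_of_mono (uw S), EN_nd]
  refine forall₂_congr fun n _ => ?_
  have h1 : ∀ n, ((uw S).app (op ⦋d⦌) x) (cl d n) = (x.1 (cl d n), fb x n) := fun _ => rfl
  rw [h1, h1, Ne, Prod.ext_iff, not_and]
  simp only [fa, Fin.ext_iff]

/-- Words outside of the subcomplex. -/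
theorem f_out (v : S) (x : ((Δ[1] : SSet.{0}) ⊗ EN S) _⦋d⦌) :
    x ∉ (SSet.Subcomplex.unionProd (SSet.boundary.{0} 1) (ENsub {v})).obj _ ↔
      fa x 0 = 0 ∧ fa x d = 1 ∧ ∃ n ≤ d, fb x n ≠ v := by
  have h0 : x ∈ (SSet.Subcomplex.unionProd (SSet.boundary.{0} 1) (ENsub {v})).obj _ ↔
      x.2 ∈ (ENsub {v}).obj (op ⦋d⦌) ∨ x.1 ∈ (SSet.boundary.{0} 1).obj (op ⦋d⦌) :=
    SSet.Subcomplex.mem_unionProd_iff (SSet.boundary.{0} 1) (ENsub {v}) x
  rw [h0, not_or, SSet.mem_boundary_iff_notMem_range]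
  have h1 : x.2 ∈ (ENsub {v}).obj (op ⦋d⦌) ↔ ∀ n ≤ d, fb x n = v := by
    constructor
    · intro h n _
      exact h _
    · intro h i
      have := h i.val (Nat.le_of_lt_succ i.isLt)
      rw [fb, cl_eq] at this
      exact this
  rw [h1]
  push Not
  constructor
  · rintro ⟨⟨n, hn, h2⟩, h3⟩
    refine ⟨?_, ?_, n, hn, h2⟩
    · obtain ⟨i, hi⟩ := h3 0
      have h4 : fa x i.val = 0 := by
        rw [fa, cl_eq, hi]
        rfl
      have := fa_mono x (Nat.zero_le i.val)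
      omega
    · obtain ⟨i, hi⟩ := h3 1
      have h4 : fa x i.val = 1 := by
        rw [fa, cl_eq, hi]
        rfl
      have := fa_mono x (Nat.le_of_lt_succ i.isLt)
      have := fa_le x d
      omega
  · rintro ⟨h2, h3, n, hn, h4⟩
    refine ⟨⟨n, hn, h4⟩, ?_⟩
    intro j
    have hj := j.isLt
    rcases (show j.val = 0 ∨ j.val = 1 by omega) with hj | hj
    · exact ⟨cl d 0, Fin.ext (h2.trans hj.symm)⟩
    · exact ⟨cl d d, Fin.ext (h3.trans hj.symm)⟩

/-! ### The pairing -/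

/-- Nondegenerate and outside. -/
structure Ok (v : S) (x : ((Δ[1] : SSet.{0}) ⊗ EN S) _⦋d⦌) : Prop where
  nd : ∀ n < d, fa x n = fa x (n + 1) → fb x n ≠ fb x (n + 1)
  z : fa x 0 = 0
  o : fa x d = 1
  ne : ∃ n ≤ d, fb x n ≠ v

theorem ok_iff (v : S) (x : ((Δ[1] : SSet.{0}) ⊗ EN S) _⦋d⦌) :
    Ok v x ↔ x ∈ ((Δ[1] : SSet.{0}) ⊗ EN S).nonDegenerate d ∧
      x ∉ (SSet.Subcomplex.unionProd (SSet.boundary.{0} 1) (ENsub {v})).obj _ := by
  rw [f_nd, f_out]
  exact ⟨fun h => ⟨h.nd, h.z, h.o, h.ne⟩, fun h => ⟨h.1, h.2.1, h.2.2.1, h.2.2.2⟩⟩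

/-- Jumps. -/
def IIa (v : S) (x : ((Δ[1] : SSet.{0}) ⊗ EN S) _⦋d⦌) : Prop :=
  ∃ n < d, fa x n = 0 ∧ fa x (n + 1) = 1 ∧ fb x n ≠ v

def IIb (v : S) (x : ((Δ[1] : SSet.{0}) ⊗ EN S) _⦋d⦌) : Prop :=
  1 ≤ d ∧ fa x 1 = 1 ∧ fb x 0 = v ∧ fb x 1 ≠ v

def Ia (v : S) (x : ((Δ[1] : SSet.{0}) ⊗ EN S) _⦋d + 1⦌) (i : Fin (d + 2)) : Prop :=
  1 ≤ i.val ∧ i.val < d + 1 ∧ fa x i.val = 0 ∧ fa x (i.val + 1) = 1 ∧ fb x i.val = v

def Ib (v : S) (x : ((Δ[1] : SSet.{0}) ⊗ EN S) _⦋d + 1⦌) (i : Fin (d + 2)) : Prop :=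
  i.val = 1 ∧ fa x 1 = 1 ∧ fb x 0 = v ∧ fb x 1 = v

theorem jump_unique {x : ((Δ[1] : SSet.{0}) ⊗ EN S) _⦋d⦌} {n m : ℕ} (h1 : fa x n = 0)
    (h2 : fa x (n + 1) = 1) (h3 : fa x m = 0) (h4 : fa x (m + 1) = 1) : n = m := by
  rcases Nat.lt_trichotomy n m with h | h | h
  · have := fa_mono x (show n + 1 ≤ m from h)
    omega
  · exact h
  · have := fa_mono x (show m + 1 ≤ n from h)
    omega

theorem not_IIa_IIb {v : S} {x : ((Δ[1] : SSet.{0}) ⊗ EN S) _⦋d⦌} (hx : Ok v x)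
    (h : IIa v x) (h' : IIb v x) : False := by
  obtain ⟨n, _, h1, h2, h3⟩ := h
  obtain ⟨_, h4, h5, _⟩ := h'
  have := jump_unique h1 h2 hx.z h4
  subst this
  exact h3 h5

/-- Deleting the distinguished letter of a word of type I-a. -/
theorem Ia_δ {v : S} {x : ((Δ[1] : SSet.{0}) ⊗ EN S) _⦋d + 1⦌} {i : Fin (d + 2)}
    (hx : Ok v x) (h : Ia v x i) : Ok v (((Δ[1] : SSet.{0}) ⊗ EN S).δ i x) ∧
      IIa v (((Δ[1] : SSet.{0}) ⊗ EN S).δ i x) := by
  obtain ⟨h1, h2, h3, h4, h5⟩ := h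
  obtain ⟨k, hk⟩ : ∃ k, i.val = k + 1 := ⟨i.val - 1, by omega⟩
  have h6 : fa x k = 0 := by
    have := fa_mono x (show k ≤ i.val by omega)
    omega
  have h7 : fb x k ≠ v := by
    have := hx.nd k (by omega) (by rw [h6, ← hk, h3])
    rwa [← hk, h5] at this
  refine ⟨⟨?_, ?_, ?_, k, by omega, ?_⟩, k, by omega, ?_, ?_, ?_⟩
  · intro n hn
    rw [fa_δ x i (by omega), fa_δ x i (by omega), fb_δ x i (by omega), fb_δ x i (by omega)]
    rcases Nat.lt_trichotomy (n + 1) i.val with h | h | h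
    · rw [if_pos (by omega), if_pos (by omega)]
      exact hx.nd n (by omega)
    · rw [if_pos (by omega), if_neg (by omega), h, h4]
      have : n = k := by omega
      subst this
      intro h8
      omega
    · rw [if_neg (by omega), if_neg (by omega)]
      exact hx.nd (n + 1) (by omega)
  · rw [fa_δ x i (by omega), if_pos (by omega)]
    exact hx.z
  · rw [fa_δ x i (by omega), if_neg (by omega)]
    exact hx.o
  · rw [fb_δ x i (by omega), if_pos (by omega)]
    exact h7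
  · rw [fa_δ x i (by omega), if_pos (by omega)]
    exact h6
  · rw [fa_δ x i (by omega), if_neg (by omega), ← hk]
    exact h4
  · rw [fb_δ x i (by omega), if_pos (by omega)]
    exact h7

theorem Ib_δ {v : S} {x : ((Δ[1] : SSet.{0}) ⊗ EN S) _⦋d + 1⦌} {i : Fin (d + 2)}
    (hx : Ok v x) (h : Ib v x i) : Ok v (((Δ[1] : SSet.{0}) ⊗ EN S).δ i x) ∧
      IIb v (((Δ[1] : SSet.{0}) ⊗ EN S).δ i x) := by
  obtain ⟨h1, h2, h3, h4⟩ := h
  have hd : 1 ≤ d := by
    obtain ⟨n, hn, h5⟩ := hx.ne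
    by_contra hd
    have : n = 0 ∨ n = 1 := by omega
    rcases this with rfl | rfl
    · exact h5 h3
    · exact h5 h4
  have h6 : fa x 2 = 1 := by
    have := fa_mono x (show 1 ≤ 2 by omega)
    have := fa_le x 2
    omega
  have h7 : fb x 2 ≠ v := by
    have := hx.nd 1 (by omega) (by rw [h6, h2])
    rw [h4] at this
    exact fun h => this h.symm
  have e0 : fa (((Δ[1] : SSet.{0}) ⊗ EN S).δ i x) 1 = 1 := by
    rw [fa_δ x i hd, if_neg (by omega)]
    exact h6
  have e1 : fb (((Δ[1] : SSet.{0}) ⊗ EN S).δ i x) 1 ≠ v := by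
    rw [fb_δ x i hd, if_neg (by omega)]
    exact h7
  have e2 : fa (((Δ[1] : SSet.{0}) ⊗ EN S).δ i x) 0 = 0 := by
    rw [fa_δ x i (by omega), if_pos (by omega)]
    exact hx.z
  refine ⟨⟨?_, e2, ?_, 1, hd, e1⟩, hd, e0, ?_, e1⟩
  · intro n hn
    rcases Nat.eq_zero_or_pos n with rfl | hn0
    · intro h
      rw [e2, e0] at h
      omega
    · rw [fa_δ x i (by omega), fa_δ x i (by omega), fb_δ x i (by omega), fb_δ x i (by omega),
        if_neg (by omega), if_neg (by omega)]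
      exact hx.nd (n + 1) (by omega)
  · rw [fa_δ x i (by omega), if_neg (by omega)]
    exact hx.o
  · rw [fb_δ x i (by omega), if_pos (by omega)]
    exact h3

/-- Insertion of a letter. -/
def ins {T : Type} (k : ℕ) (c : T) (f : ℕ → T) (n : ℕ) : T :=
  if n < k then f n else if n = k then c else f (n - 1)

theorem ins_skip {T : Type} (k : ℕ) (c : T) (f : ℕ → T) (n : ℕ) :
    ins k c f (if n < k then n else n + 1) = f n := by
  unfold ins
  split_ifs <;> first | rfl | omega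

theorem ex_IIa {v : S} {x : ((Δ[1] : SSet.{0}) ⊗ EN S) _⦋d⦌} (hx : Ok v x) (h : IIa v x) :
    ∃ (y : ((Δ[1] : SSet.{0}) ⊗ EN S) _⦋d + 1⦌) (i : Fin (d + 2)), Ok v y ∧ Ia v y i ∧
      ((Δ[1] : SSet.{0}) ⊗ EN S).δ i y = x := by
  obtain ⟨k, hk, h1, h2, h3⟩ := h
  have a0 : ∀ n ≤ k, fa x n = 0 := fun n hn => by
    have := fa_mono x hn
    omega
  have a1 : ∀ n, k + 1 ≤ n → fa x n = 1 := fun n hn => by
    have := fa_mono x hn
    have := fa_le x n
    omega
  obtain ⟨y, ya, yb⟩ := f_mk (d + 1) (fun n => if n ≤ k + 1 then 0 else 1)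
    (ins (k + 1) v (fb x))
    (by
      intro n _
      split_ifs <;> omega)
    (by
      intro n _
      split_ifs <;> omega)
  have ya' : ∀ n ≤ k + 1, fa y n = 0 := by
    intro n hn
    rw [ya n (by omega), if_pos hn]
  have ya1 : ∀ n, k + 2 ≤ n → n ≤ d + 1 → fa y n = 1 := by
    intro n hn hn'
    rw [ya n (by omega), if_neg (by omega)]
  have hi : (⟨k + 1, by omega⟩ : Fin (d + 2)).val = k + 1 := rfl
  refine ⟨y, ⟨k + 1, by omega⟩, ⟨?_, ya' 0 (by omega), ?_, k, by omega, ?_⟩,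
    ⟨by omega, by simp only; omega, ya' _ le_rfl, ?_, ?_⟩, f_ext ?_ ?_⟩
  · intro n hn
    rw [yb n (by omega), yb (n + 1) (by omega)]
    unfold ins
    rcases (show n < k ∨ n = k ∨ n = k + 1 ∨ k + 1 < n by omega) with h | h | h | h
    · rw [if_pos (by omega), if_pos (by omega)]
      intro _
      exact hx.nd n (by omega) (by rw [a0 _ (by omega), a0 _ (by omega)])
    · subst h
      rw [if_pos (by omega), if_neg (by omega), if_pos rfl]
      intro _
      exact h3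
    · intro h8
      rw [ya' _ (by omega), ya1 _ (by omega) (by omega)] at h8
      omega
    · rw [if_neg (by omega), if_neg (by omega), if_neg (by omega), if_neg (by omega)]
      intro _
      have := hx.nd (n - 1) (by omega) (by rw [a1 _ (by omega), a1 _ (by omega)])
      rwa [show n - 1 + 1 = n + 1 - 1 by omega] at this
  · exact ya1 _ (by omega) le_rfl
  · rw [yb _ (by omega), ins, if_pos (by omega)]
    exact h3
  · exact ya1 _ (by simp only; omega) (by simp only; omega)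
  · rw [hi, yb _ (by omega), ins, if_neg (by omega), if_pos rfl]
  · intro n hn
    rw [fa_δ y _ hn, hi]
    rcases Nat.lt_or_ge n (k + 1) with h | h
    · rw [if_pos h, ya' _ (by omega), a0 _ (by omega)]
    · rw [if_neg (by omega), ya1 _ (by omega) (by omega), a1 _ (by omega)]
  · intro n hn
    rw [fb_δ y _ hn, hi, yb _ (by split_ifs <;> omega), ins_skip]

theorem ex_IIb {v : S} {x : ((Δ[1] : SSet.{0}) ⊗ EN S) _⦋d⦌} (hx : Ok v x) (h : IIb v x) :
    ∃ (y : ((Δ[1] : SSet.{0}) ⊗ EN S) _⦋d + 1⦌) (i : Fin (d + 2)), Ok v y ∧ Ib v y i ∧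
      ((Δ[1] : SSet.{0}) ⊗ EN S).δ i y = x := by
  obtain ⟨hd, h1, h2, h3⟩ := h
  have a1 : ∀ n, 1 ≤ n → fa x n = 1 := fun n hn => by
    have := fa_mono x hn
    have := fa_le x n
    omega
  obtain ⟨y, ya, yb⟩ := f_mk (d + 1) (fun n => if n = 0 then 0 else 1) (ins 1 v (fb x))
    (by
      intro n _
      split_ifs <;> omega)
    (by
      intro n _
      rw [if_neg (Nat.succ_ne_zero n)]
      split_ifs <;> omega)
  have ya0 : fa y 0 = 0 := by
    rw [ya 0 (by omega), if_pos rfl]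
  have ya1 : ∀ n, 1 ≤ n → n ≤ d + 1 → fa y n = 1 := by
    intro n hn hn'
    rw [ya n (by omega), if_neg (by omega)]
  have hi : (⟨1, by omega⟩ : Fin (d + 2)).val = 1 := rfl
  refine ⟨y, ⟨1, by omega⟩, ⟨?_, ?_, ?_, 2, by omega, ?_⟩,
    ⟨rfl, ?_, ?_, ?_⟩, f_ext ?_ ?_⟩
  · intro n hn
    rw [yb n (by omega), yb (n + 1) (by omega)]
    unfold ins
    rcases (show n = 0 ∨ n = 1 ∨ 2 ≤ n by omega) with rfl | rfl | h
    · intro h8
      rw [ya0, ya1 _ (by omega) (by omega)] at h8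
      omega
    · rw [if_neg (by omega), if_pos rfl, if_neg (by omega), if_neg (by omega)]
      intro _
      exact fun h => h3 h.symm
    · rw [if_neg (by omega), if_neg (by omega), if_neg (by omega), if_neg (by omega)]
      intro _
      have := hx.nd (n - 1) (by omega) (by rw [a1 _ (by omega), a1 _ (by omega)])
      rwa [show n - 1 + 1 = n + 1 - 1 by omega] at this
  · exact ya0
  · exact ya1 _ (by omega) le_rfl
  · rw [yb _ (by omega), ins, if_neg (by omega), if_neg (by omega)]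
    exact h3
  · exact ya1 _ le_rfl (by omega)
  · rw [yb _ (by omega), ins, if_pos (by omega)]
    exact h2
  · rw [yb _ (by omega), ins, if_neg (by omega), if_pos rfl]
  · intro n hn
    rw [fa_δ y _ hn, hi]
    rcases Nat.eq_zero_or_pos n with h | h
    · subst h
      rw [if_pos (by omega), ya0, hx.z]
    · rw [if_neg (by omega), ya1 _ (by omega) (by omega), a1 _ h]
  · intro n hn
    rw [fb_δ y _ hn, hi, yb _ (by split_ifs <;> omega), ins_skip]

/-- A word is determined by a face and the deleted letter. -/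
theorem eq_of_δ {x y : ((Δ[1] : SSet.{0}) ⊗ EN S) _⦋d + 1⦌} {i : Fin (d + 2)}
    (h : ((Δ[1] : SSet.{0}) ⊗ EN S).δ i x = ((Δ[1] : SSet.{0}) ⊗ EN S).δ i y)
    (ha : fa x i.val = fa y i.val) (hb : fb x i.val = fb y i.val) : x = y := by
  have key : ∀ n ≤ d + 1, n ≠ i.val → ∃ m ≤ d, (if m < i.val then m else m + 1) = n := by
    intro n hn hni
    rcases Nat.lt_or_ge n i.val with h | h
    · exact ⟨n, by omega, by rw [if_pos h]⟩
    · exact ⟨n - 1, by omega, by rw [if_neg (by omega)]; omega⟩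
  refine f_ext ?_ ?_
  · intro n hn
    by_cases hni : n = i.val
    · rw [hni, ha]
    · obtain ⟨m, hm, rfl⟩ := key n hn hni
      rw [← fa_δ x i hm, ← fa_δ y i hm, h]
  · intro n hn
    by_cases hni : n = i.val
    · rw [hni, hb]
    · obtain ⟨m, hm, rfl⟩ := key n hn hni
      rw [← fb_δ x i hm, ← fb_δ y i hm, h]

theorem inj_aux {v : S} {x y : ((Δ[1] : SSet.{0}) ⊗ EN S) _⦋d + 1⦌} {i j : Fin (d + 2)}
    (hx : Ok v x) (hy : Ok v y) (hi : Ia v x i ∨ Ib v x i) (hj : Ia v y j ∨ Ib v y j)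
    (h : ((Δ[1] : SSet.{0}) ⊗ EN S).δ i x = ((Δ[1] : SSet.{0}) ⊗ EN S).δ j y) : x = y := by
  rcases hi with hi | hi <;> rcases hj with hj | hj
  · obtain ⟨i1, i2, i3, i4, i5⟩ := hi
    obtain ⟨j1, j2, j3, j4, j5⟩ := hj
    have e1 : fa (((Δ[1] : SSet.{0}) ⊗ EN S).δ i x) (i.val - 1) = 0 := by
      rw [fa_δ x i (by omega), if_pos (by omega)]
      have := fa_mono x (show i.val - 1 ≤ i.val by omega)
      omega
    have e2 : fa (((Δ[1] : SSet.{0}) ⊗ EN S).δ i x) (i.val - 1 + 1) = 1 := by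
      rw [fa_δ x i (by omega), if_neg (by omega), show i.val - 1 + 1 + 1 = i.val + 1 by omega]
      exact i4
    have e3 : fa (((Δ[1] : SSet.{0}) ⊗ EN S).δ j y) (j.val - 1) = 0 := by
      rw [fa_δ y j (by omega), if_pos (by omega)]
      have := fa_mono y (show j.val - 1 ≤ j.val by omega)
      omega
    have e4 : fa (((Δ[1] : SSet.{0}) ⊗ EN S).δ j y) (j.val - 1 + 1) = 1 := by
      rw [fa_δ y j (by omega), if_neg (by omega), show j.val - 1 + 1 + 1 = j.val + 1 by omega]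
      exact j4
    rw [h] at e1 e2
    have hij : i = j := by
      have := jump_unique e1 e2 e3 e4
      exact Fin.ext (by omega)
    subst hij
    exact eq_of_δ h (by rw [i3, j3]) (by rw [i5, j5])
  · have h1 := (Ia_δ hx hi).2
    have h2 := (Ib_δ hy hj).2
    rw [h] at h1
    exact (not_IIa_IIb (Ib_δ hy hj).1 h1 h2).elim
  · have h1 := (Ib_δ hx hi).2
    have h2 := (Ia_δ hy hj).2
    rw [h] at h1
    exact (not_IIa_IIb (Ia_δ hy hj).1 h2 h1).elim
  · have hij : i = j := Fin.ext (by rw [hi.1, hj.1])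
    subst hij
    refine eq_of_δ h ?_ ?_
    · rw [hi.1, hi.2.1, hj.2.1]
    · rw [hi.1, hi.2.2.2, hj.2.2.2]

theorem uniq_aux {v : S} {x : ((Δ[1] : SSet.{0}) ⊗ EN S) _⦋d + 1⦌} {i j : Fin (d + 2)}
    (hx : Ok v x) (hi : Ia v x i ∨ Ib v x i) (hj : Ia v x j ∨ Ib v x j) : i = j := by
  rcases hi with hi | hi <;> rcases hj with hj | hj
  · exact Fin.ext (jump_unique hi.2.2.1 hi.2.2.2.1 hj.2.2.1 hj.2.2.2.1)
  · have := jump_unique hi.2.2.1 hi.2.2.2.1 hx.z hj.2.1
    have := hi.1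
    omega
  · have := jump_unique hj.2.2.1 hj.2.2.2.1 hx.z hi.2.1
    have := hj.1
    omega
  · exact Fin.ext (by rw [hi.1, hj.1])

/-- A word of type I is not of type II. -/
theorem not_II_aux {v : S} {x : ((Δ[1] : SSet.{0}) ⊗ EN S) _⦋d + 1⦌} {i : Fin (d + 2)}
    (hx : Ok v x) (hi : Ia v x i ∨ Ib v x i) (h : IIa v x ∨ IIb v x) : False := by
  rcases hi with hi | hi <;> rcases h with h | h
  · obtain ⟨n, _, h1, h2, h3⟩ := h
    have := jump_unique hi.2.2.1 hi.2.2.2.1 h1 h2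
    rw [← this] at h3
    exact h3 hi.2.2.2.2
  · have := jump_unique hi.2.2.1 hi.2.2.2.1 hx.z h.2.1
    have := hi.1
    omega
  · obtain ⟨n, _, h1, h2, h3⟩ := h
    have := jump_unique hx.z hi.2.1 h1 h2
    rw [← this] at h3
    exact h3 hi.2.2.1
  · exact h.2.2.2 hi.2.2.2

theorem face_aux {v : S} {x : ((Δ[1] : SSet.{0}) ⊗ EN S) _⦋d + 1⦌} {i j : Fin (d + 2)}
    (hi : Ia v x i ∨ Ib v x i) (hji : j ≠ i)
    (ho : Ok v (((Δ[1] : SSet.{0}) ⊗ EN S).δ j x))
    (h : IIa v (((Δ[1] : SSet.{0}) ⊗ EN S).δ j x) ∨ IIb v (((Δ[1] : SSet.{0}) ⊗ EN S).δ j x)) :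
    Ia v x i ∧ ¬ IIa v (((Δ[1] : SSet.{0}) ⊗ EN S).δ j x) := by
  have hji' : j.val ≠ i.val := fun h => hji (Fin.ext h)
  rcases hi with hi | hi
  · refine ⟨hi, ?_⟩
    obtain ⟨i1, i2, i3, i4, i5⟩ := hi
    -- `k` is the position of the distinguished letter in the face
    obtain ⟨k, hk, k1, k2, k3⟩ : ∃ k ≤ d, fa (((Δ[1] : SSet.{0}) ⊗ EN S).δ j x) k = 0 ∧
        fb (((Δ[1] : SSet.{0}) ⊗ EN S).δ j x) k = v ∧
        (k + 1 ≤ d → fa (((Δ[1] : SSet.{0}) ⊗ EN S).δ j x) (k + 1) = 1) := by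
      rcases Nat.lt_or_ge j.val i.val with hj | hj
      · refine ⟨i.val - 1, by omega, ?_, ?_, ?_⟩
        · rw [fa_δ x j (by omega), if_neg (by omega), show i.val - 1 + 1 = i.val by omega]
          exact i3
        · rw [fb_δ x j (by omega), if_neg (by omega), show i.val - 1 + 1 = i.val by omega]
          exact i5
        · intro hk
          rw [fa_δ x j (by omega), if_neg (by omega),
            show i.val - 1 + 1 + 1 = i.val + 1 by omega]
          exact i4
      · refine ⟨i.val, by omega, ?_, ?_, ?_⟩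
        · rw [fa_δ x j (by omega), if_pos (by omega)]
          exact i3
        · rw [fb_δ x j (by omega), if_pos (by omega)]
          exact i5
        · intro hk
          rw [fa_δ x j (by omega)]
          have h1 := fa_mono x (show i.val + 1 ≤ (if i.val + 1 < j.val then i.val + 1
            else i.val + 1 + 1) by split_ifs <;> omega)
          have h2 := fa_le x (if i.val + 1 < j.val then i.val + 1 else i.val + 1 + 1)
          omega
    rintro ⟨n, hn, n1, n2, n3⟩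
    have hkd : k + 1 ≤ d := by
      by_contra hkd
      have : k = d := by omega
      rw [this, ho.o] at k1
      omega
    have := jump_unique n1 n2 k1 (k3 hkd)
    rw [this] at n3
    exact n3 k2
  · exfalso
    obtain ⟨i1, i2, i3, i4⟩ := hi
    rcases Nat.eq_zero_or_pos j.val with hj | hj
    · have h9 := ho.z
      rw [fa_δ x j (by omega), if_neg (by omega)] at h9
      rw [show 0 + 1 = 1 from rfl, i2] at h9
      exact absurd h9 (by omega)
    · have hd : 1 ≤ d := by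
        have := j.isLt
        omega
      have e0 : fb (((Δ[1] : SSet.{0}) ⊗ EN S).δ j x) 0 = v := by
        rw [fb_δ x j (by omega), if_pos (by omega)]
        exact i3
      have e1 : fb (((Δ[1] : SSet.{0}) ⊗ EN S).δ j x) 1 = v := by
        rw [fb_δ x j (by omega), if_pos (by omega)]
        exact i4
      have e2 : fa (((Δ[1] : SSet.{0}) ⊗ EN S).δ j x) 1 = 1 := by
        rw [fa_δ x j (by omega), if_pos (by omega)]
        exact i2
      rcases h with ⟨n, hn, n1, n2, n3⟩ | h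
      · have := jump_unique n1 n2 ho.z e2
        rw [this] at n3
        exact n3 e0
      · exact h.2.2.2 e1

open Classical in
/-- The pairing. -/
noncomputable def pd (v : S) :
    PData (SSet.Subcomplex.unionProd (SSet.boundary.{0} 1) (ENsub {v})) where
  I x i := Ok v x ∧ (Ia v x i ∨ Ib v x i)
  II x := Ok v x ∧ (IIa v x ∨ IIb v x)
  rk x := if IIa v x then 1 else 0
  I_nd h := ((ok_iff v _).1 h.1).1
  I_not h := ((ok_iff v _).1 h.1).2
  II_nd h := ((ok_iff v _).1 h.1).1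
  II_not h := ((ok_iff v _).1 h.1).2
  I_II := by
    rintro d x i ⟨hx, h | h⟩
    · exact ⟨(Ia_δ hx h).1, Or.inl (Ia_δ hx h).2⟩
    · exact ⟨(Ib_δ hx h).1, Or.inr (Ib_δ hx h).2⟩
  not_II h h' := not_II_aux h.1 h.2 h'.2
  cover0 x h h' := by
    have := (ok_iff v x).2 ⟨h, h'⟩
    have h1 := this.z
    have h2 := this.o
    omega
  cover {d} x h h' := by
    have hx := (ok_iff v x).2 ⟨h, h'⟩
    have hex : ∃ n, fa x (n + 1) = 1 := ⟨d, hx.o⟩
    set n := Nat.find hex with hn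
    have h1 : fa x (n + 1) = 1 := Nat.find_spec hex
    have h2 : n ≤ d := Nat.find_min' hex hx.o
    have h3 : fa x n = 0 := by
      rcases Nat.eq_zero_or_pos n with h0 | h0
      · rw [h0]
        exact hx.z
      · have h4 := Nat.find_min hex (show n - 1 < Nat.find hex by omega)
        rw [show n - 1 + 1 = n by omega] at h4
        have := fa_le x n
        omega
    by_cases hb : fb x n = v
    · rcases Nat.eq_zero_or_pos n with h0 | h0
      · rw [h0] at h1 hb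
        by_cases hb1 : fb x 1 = v
        · exact Or.inr ⟨⟨1, by omega⟩, hx, Or.inr ⟨rfl, h1, hb, hb1⟩⟩
        · exact Or.inl ⟨hx, Or.inr ⟨by omega, h1, hb, hb1⟩⟩
      · exact Or.inr ⟨⟨n, by omega⟩, hx, Or.inl ⟨h0, by simp only; omega, h3, h1, hb⟩⟩
    · exact Or.inl ⟨hx, Or.inl ⟨n, by omega, h3, h1, hb⟩⟩
  ex := by
    rintro d x ⟨hx, h | h⟩
    · obtain ⟨y, i, h1, h2, h3⟩ := ex_IIa hx h
      exact ⟨y, i, ⟨h1, Or.inl h2⟩, h3⟩
    · obtain ⟨y, i, h1, h2, h3⟩ := ex_IIb hx h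
      exact ⟨y, i, ⟨h1, Or.inr h2⟩, h3⟩
  inj h h' e := inj_aux h.1 h'.1 h.2 h'.2 e
  uniq h h' := uniq_aux h.1 h.2 h'.2
  lt h hne h' := by
    obtain ⟨h1, h2⟩ := face_aux h.2 hne h'.1 h'.2
    rw [if_neg h2, if_pos (Ia_δ h.1 h1).2]
    exact Nat.zero_lt_one
  inner0 := by
    rintro d x i ⟨_, h | h⟩ rfl
    · exact absurd h.1 (by simp)
    · exact absurd h.1 (by simp)
  innerL := by
    rintro d x i ⟨hx, h | h⟩ rfl
    · exact absurd h.2.1 (by simp)
    · obtain ⟨n, hn, h5⟩ := hx.ne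
      have h1 : d + 1 = 1 := h.1
      have : n = 0 ∨ n = 1 := by omega
      rcases this with rfl | rfl
      · exact h5 h.2.2.1
      · exact h5 h.2.2.2

end

theorem EN_inner_prod {S : Type} (v : S) :
    SSet.innerAnodyneExtensions
      (SSet.Subcomplex.unionProd (SSet.boundary.{0} 1) (ENsub {v})).ι :=
  (pd v).innerAnodyne

end Pool.Agent.Helper43.FL2
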