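import Pool.Agent.Helper43.FL2.Transfer
import Pool.Agent.Helper45.FL2.LocAll
import Pool.Agent.Helper51.FL2.Spine
import Pool.Agent.Helper7.FL2.Vface

/-!
# FL2-H4: inner anodyne extensions induce local maps
-/

open CategoryTheory MonoidalCategory Opposite

set_option autoImplicit false

namespace Pool.Agent.Helper43.FL2

open FL

variable {C : Type} [SmallCategory C]

theorem Ph_transfer {X : SP (Wr C)} (hX : InjFib X) (hS : SpLoc X) {r : ℕ} (B : Fin r → SP C)
    {N N' : SSet.{0}} (i : N ⟶ N') (hi : SSet.innerAnodyneExtensions i)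
    (s : N' ⟶ SSet.stdSimplex.obj (SimplexCategory.mk r)) : Loc X (Ph.map B i s) :=
  Pool.Agent.Helper45.FL2.TrivFib.hoEq
    (Ph_transfer_of (fun B s => Pool.Agent.Helper7.FL2.Ph_simplex B s)
      (fun B i h0 h1 => Pool.Agent.Helper51.FL2.vface_horn hX hS B i h0 h1)
      (fun f hf => Pool.Agent.Helper45.LOC.loc_iff_range f hf)
      (fun hg hfg => Pool.Agent.Helper45.LOC.loc_of_comp_right hX hg hfg)
      (fun f _ => Pool.Agent.Helper45.LOC.loc_of_isIso f)
      (fun i hi h => (Pool.Agent.Helper45.LOC.loc_iff_trivFib hX i hi).1 h) B i hi s)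

end Pool.Agent.Helper43.FL2
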