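import Pool.Agent.Helper58.FL2.Flag2
import Pool.Agent.Helper36.FL.Cyl

/-!
# Tools for edge lifting: gluing, projections from `P ⊗ Δ[1]`, lifting against `Λ[1, i]`
-/

open CategoryTheory MonoidalCategory Opposite Simplicial

set_option autoImplicit false

namespace Pool.Agent.Helper43.FL2

open FL

noncomputable section

section Glue

variable {A : Type} [SmallCategory A] {P X : SP A}

open Classical in
/-- Gluing maps defined on two sub-presheaves. -/
theorem glue (S T : Sb P) (f : S.toSP ⟶ X) (g : T.toSP ⟶ X)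
    (h : ∀ (a : Aᵒᵖ) (k : SimplexCategoryᵒᵖ) (x : (P.obj a).obj k) (hx : x ∈ S.mem a k)
      (hx' : x ∈ T.mem a k), (f.app a).app k ⟨x, hx⟩ = (g.app a).app k ⟨x, hx'⟩) :
    ∃ F : (S ⊔ T).toSP ⟶ X,
      (∀ (a : Aᵒᵖ) (k : SimplexCategoryᵒᵖ) (x : (P.obj a).obj k) (hx : x ∈ S.mem a k),
        (F.app a).app k ⟨x, Or.inl hx⟩ = (f.app a).app k ⟨x, hx⟩) ∧
      ∀ (a : Aᵒᵖ) (k : SimplexCategoryᵒᵖ) (x : (P.obj a).obj k) (hx : x ∈ T.mem a k),
        (F.app a).app k ⟨x, Or.inr hx⟩ = (g.app a).app k ⟨x, hx⟩ := by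
  let val : ∀ (a : Aᵒᵖ) (k : SimplexCategoryᵒᵖ),
      { x : (P.obj a).obj k // x ∈ (S ⊔ T).mem a k } → (X.obj a).obj k := fun a k z =>
    if hz : z.1 ∈ S.mem a k then (f.app a).app k ⟨z.1, hz⟩
    else (g.app a).app k ⟨z.1, z.2.resolve_left hz⟩
  have v1 : ∀ a k z (hz : z.1 ∈ S.mem a k), val a k z = (f.app a).app k ⟨z.1, hz⟩ :=
    fun a k z hz => dif_pos hz
  have v2 : ∀ a k z (hz : z.1 ∈ T.mem a k), val a k z = (g.app a).app k ⟨z.1, hz⟩ := by
    intro a k z hz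
    by_cases hz' : z.1 ∈ S.mem a k
    · rw [v1 a k z hz', h a k z.1 hz' hz]
    · exact dif_neg hz'
  let F : (S ⊔ T).toSP ⟶ X :=
    { app := fun a =>
        { app := fun k => ↾ fun z => val a k z
          naturality := fun k l α => by
            refine ConcreteCategory.hom_ext _ _ fun z => ?_
            obtain ⟨x, hx | hx⟩ := z
            · refine (v1 a l ⟨(P.obj a).map α x, _⟩ (S.mapk a α x hx)).trans ?_
              refine Eq.trans ?_ (congrArg ((X.obj a).map α) (v1 a k ⟨x, Or.inl hx⟩ hx)).symm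
              exact hom_natk f α (⟨x, hx⟩ : { x // x ∈ S.mem a k })
            · refine (v2 a l ⟨(P.obj a).map α x, _⟩ (T.mapk a α x hx)).trans ?_
              refine Eq.trans ?_ (congrArg ((X.obj a).map α) (v2 a k ⟨x, Or.inr hx⟩ hx)).symm
              exact hom_natk g α (⟨x, hx⟩ : { x // x ∈ T.mem a k }) }
      naturality := fun a b u => by
        refine NatTrans.ext (funext fun k => ?_)
        refine ConcreteCategory.hom_ext _ _ fun z => ?_
        obtain ⟨x, hx | hx⟩ := z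
        · refine (v1 b k ⟨(P.map u).app k x, _⟩ (S.mapA u k x hx)).trans ?_
          refine Eq.trans ?_ (congrArg ((X.map u).app k) (v1 a k ⟨x, Or.inl hx⟩ hx)).symm
          exact hom_nat f u (⟨x, hx⟩ : { x // x ∈ S.mem a k })
        · refine (v2 b k ⟨(P.map u).app k x, _⟩ (T.mapA u k x hx)).trans ?_
          refine Eq.trans ?_ (congrArg ((X.map u).app k) (v2 a k ⟨x, Or.inr hx⟩ hx)).symm
          exact hom_nat g u (⟨x, hx⟩ : { x // x ∈ T.mem a k }) }
  exact ⟨F, fun a k x hx => v1 a k ⟨x, _⟩ hx, fun a k x hx => v2 a k ⟨x, _⟩ hx⟩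

end Glue

section Proj

variable {A : Type} [SmallCategory A] {P X : SP A}

/-- The projection `P ⊗ K ⟶ P`. -/
def prj (P : SP A) (K : SSet.{0}) : tn P K ⟶ P where
  app _ := { app := fun _ => ↾ fun z => z.1, naturality := fun _ _ _ => rfl }
  naturality _ _ _ := rfl

/-- The minimum of two simplices of `Δ[1]`. -/
def mn {k : SimplexCategoryᵒᵖ} (t : (Δ[1] : SSet.{0}).obj k) (τ : k.unop ⟶ ⦋1⦌) :
    (Δ[1] : SSet.{0}).obj k :=
  SSet.stdSimplex.objEquiv.symm (SimplexCategory.Hom.mk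
    ((SSet.stdSimplex.objEquiv t).toOrderHom ⊓ τ.toOrderHom))

/-- The constant simplex. -/
def cv (v : Fin 2) (k : SimplexCategoryᵒᵖ) : (Δ[1] : SSet.{0}).obj k :=
  SSet.stdSimplex.objEquiv.symm (SimplexCategory.const k.unop ⦋1⦌ v)

theorem prj_sdr (T : Sb (tn P Δ[1])) (S : Sb P)
    (h : ∀ (a : Aᵒᵖ) (k : SimplexCategoryᵒᵖ) (x : (P.obj a).obj k) (t : (Δ[1] : SSet.{0}).obj k),
      (x, t) ∈ T.mem a k ↔ x ∈ S.mem a k)
    (hr : ∀ (a : Aᵒᵖ) (k : SimplexCategoryᵒᵖ) (z : ((tn P Δ[1]).obj a).obj k),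
      z ∈ T.mem a k → ((prj P Δ[1]).app a).app k z ∈ S.mem a k) :
    SDR (Sb.restr (prj P Δ[1]) T S hr) := by
  refine ⟨{ app := fun a =>
              { app := fun k => ↾ fun x => ⟨(x.1, cv 0 k), (h a k x.1 _).2 x.2⟩
                naturality := fun _ _ _ => rfl }
            naturality := fun _ _ _ => rfl }, rfl,
    { app := fun a k τ z => ⟨(z.1.1, mn z.1.2 τ), (h a k z.1.1 _).2 ((h a k z.1.1 z.1.2).1 z.2)⟩
      nat_left := fun _ _ _ _ => rfl
      nat_right := fun _ _ _ _ _ _ => rfl }, ?_, ?_⟩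
  · refine MpS.ext (funext fun a => funext fun k => funext fun τ => funext fun z => ?_)
    refine Subtype.ext (Prod.ext rfl ?_)
    refine SSet.stdSimplex.objEquiv.injective ?_
    ext i : 3
    change (SSet.stdSimplex.objEquiv z.1.2).toOrderHom i ⊓
      (τ ≫ SimplexCategory.δ 1).toOrderHom i = 0
    have : (τ ≫ SimplexCategory.δ (1 : Fin 2)).toOrderHom i = 0 := by
      change (SimplexCategory.δ (1 : Fin 2)).toOrderHom (τ.toOrderHom i) = 0
      have h0 : τ.toOrderHom i = 0 := Subsingleton.elim (α := Fin 1) _ _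
      rw [h0]
      rfl
    rw [this]
    exact inf_bot_eq _
  · refine MpS.ext (funext fun a => funext fun k => funext fun τ => funext fun z => ?_)
    refine Subtype.ext (Prod.ext rfl ?_)
    refine SSet.stdSimplex.objEquiv.injective ?_
    ext i : 3
    change (SSet.stdSimplex.objEquiv z.1.2).toOrderHom i ⊓
      (τ ≫ SimplexCategory.δ 0).toOrderHom i = (SSet.stdSimplex.objEquiv z.1.2).toOrderHom i
    have : (τ ≫ SimplexCategory.δ (0 : Fin 2)).toOrderHom i = 1 := by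
      change (SimplexCategory.δ (0 : Fin 2)).toOrderHom (τ.toOrderHom i) = 1
      have h0 : τ.toOrderHom i = 0 := Subsingleton.elim (α := Fin 1) _ _
      rw [h0]
      rfl
    rw [this]
    exact inf_top_eq _

theorem prj_iso (T : Sb (tn P Δ[1])) (S : Sb P) (v : Fin 2)
    (h : ∀ (a : Aᵒᵖ) (k : SimplexCategoryᵒᵖ) (x : (P.obj a).obj k), x ∈ S.mem a k →
      (x, cv v k) ∈ T.mem a k)
    (hc : ∀ (a : Aᵒᵖ) (k : SimplexCategoryᵒᵖ) (z : ((tn P Δ[1]).obj a).obj k),
      z ∈ T.mem a k → z.2 = cv v k)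
    (hr : ∀ (a : Aᵒᵖ) (k : SimplexCategoryᵒᵖ) (z : ((tn P Δ[1]).obj a).obj k),
      z ∈ T.mem a k → ((prj P Δ[1]).app a).app k z ∈ S.mem a k) :
    IsIso (Sb.restr (prj P Δ[1]) T S hr) := by
  refine ⟨{ app := fun a =>
              { app := fun k => ↾ fun x => ⟨(x.1, cv v k), h a k x.1 x.2⟩
                naturality := fun _ _ _ => rfl }
            naturality := fun _ _ _ => rfl }, ?_, rfl⟩
  refine NatTrans.ext (funext fun a => NatTrans.ext (funext fun k => ?_))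
  refine ConcreteCategory.hom_ext _ _ fun z => ?_
  exact Subtype.ext (Prod.ext rfl (hc a k z.1 z.2).symm)

end Proj

section LiftOne

/-- The vertex of the horn `Λ[1, i]`. -/
def hv (i : Fin 2) : (Λ[1, i] : SSet.{0}).obj (op ⦋0⦌) :=
  ⟨cv i (op ⦋0⦌), by
    rw [SSet.mem_horn_iff_notMem_range]
    refine ⟨1 - i, ?_, ?_⟩
    · fin_cases i <;> simp
    · rintro ⟨t, ht⟩
      have : i = 1 - i := ht
      revert this
      fin_cases i <;> simp⟩

theorem horn_cv {i : Fin 2} {k : SimplexCategoryᵒᵖ} (x : (Λ[1, i] : SSet.{0}).obj k) :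
    x.1 = cv i k := by
  have hx : x.1 ∈ (Λ[1, i] : (Δ[1] : SSet.{0}).Subcomplex).obj (op ⦋k.unop.len⦌) := x.2
  rw [SSet.mem_horn_iff_notMem_range] at hx
  obtain ⟨j, hj, hj'⟩ := hx
  refine SSet.stdSimplex.objEquiv.injective ?_
  ext t : 3
  by_contra hne
  have h1 : (SSet.stdSimplex.objEquiv x.1).toOrderHom t ≠ j := fun h => hj' ⟨t, h⟩
  have h2 : (SSet.stdSimplex.objEquiv x.1).toOrderHom t ≠ i := hne
  have h3 : ∀ a b c : Fin 2, a ≠ b → c ≠ a → c ≠ b → False := by decide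
  exact h3 j i _ hj h1 h2

theorem hlp_one {E D : SSet.{0}} (p : E ⟶ D) (i : Fin 2)
    (h : ∀ (g : E.obj (op ⦋0⦌)) (e : D.obj (op ⦋1⦌)),
      p.app _ g = D.map (SimplexCategory.const ⦋0⦌ ⦋1⦌ i).op e →
      ∃ e' : E.obj (op ⦋1⦌), p.app _ e' = e ∧
        E.map (SimplexCategory.const ⦋0⦌ ⦋1⦌ i).op e' = g) :
    HasLiftingProperty (SSet.horn.{0} 1 i).ι p := by
  refine ⟨fun {f b} sq => ?_⟩
  have hb : ∀ {k : SimplexCategoryᵒᵖ} (x : (Δ[1] : SSet.{0}).obj k),
      b.app k x = D.map (SSet.stdSimplex.objEquiv x).op (SSet.yonedaEquiv b) := by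
    intro k x
    have := sset_nat b (SSet.stdSimplex.objEquiv x).op
      (SSet.stdSimplex.objEquiv.symm (𝟙 ⦋1⦌) : (Δ[1] : SSet.{0}).obj (op ⦋1⦌))
    refine Eq.trans ?_ this
    refine congrArg (b.app k) ?_
    refine SSet.stdSimplex.objEquiv.injective ?_
    change _ = (SSet.stdSimplex.objEquiv x) ≫ 𝟙 ⦋1⦌
    rw [Category.comp_id]
  obtain ⟨e', h1, h2⟩ := h (f.app _ (hv i)) (SSet.yonedaEquiv b) (by
    have := ConcreteCategory.congr_hom (NatTrans.congr_app sq.w (op ⦋0⦌)) (hv i)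
    refine this.trans (hb _))
  refine ⟨⟨{ l := SSet.yonedaEquiv.symm e', fac_left := ?_, fac_right := ?_ }⟩⟩
  · refine NatTrans.ext (funext fun k => ?_)
    refine ConcreteCategory.hom_ext _ _ fun x => ?_
    change E.map (SSet.stdSimplex.objEquiv x.1).op e' = f.app k x
    have e1 : x = (Λ[1, i] : SSet.{0}).map (SimplexCategory.const k.unop ⦋0⦌ 0).op (hv i) :=
      Subtype.ext (horn_cv x)
    have e2 : f.app k x = E.map (SimplexCategory.const k.unop ⦋0⦌ 0).op (f.app _ (hv i)) := by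
      rw [← sset_nat f, ← e1]
    rw [e2, ← h2, ← sset_comp, horn_cv x]
    rfl
  · refine SSet.yonedaEquiv.injective ?_
    refine Eq.trans ?_ h1
    change p.app _ (E.map (𝟙 ⦋1⦌).op e') = _
    rw [op_id, sset_id]

end LiftOne

end

end Pool.Agent.Helper43.FL2
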